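import Pool.Agent.VC.Les

/-!
Constructions of theories: theories of cochains, shifted products, mapping cones; the abstract
comparison theorem.
-/

namespace Pool.Agent.VC

open Set Filter Topology

universe u v w w'

namespace Thy

variable {Y : Type v} [MetricSpace Y] {K : Set Y}

/-! ### Mapping cones -/

section Cone

variable {W₁ : Type w} [AddCommGroup W₁] {W₂ : Type w'} [AddCommGroup W₂]

/-- A morphism of theories that raises degrees by `s`. -/
structure Mor (T₁ : Thy K W₁) (T₂ : Thy K W₂) (s : ℤ) where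
  φ : W₁ →+ W₂
  gr : ∀ p, ∀ w ∈ T₁.gr p, φ w ∈ T₂.gr (p + s)
  d : ∀ p, ∀ w ∈ T₁.gr p, ∀ A ⊆ K, IsCompact A → T₂.d (φ w) + φ (T₁.d w) ∈ T₂.Z A
  Z : ∀ p, ∀ w ∈ T₁.gr p, ∀ A ⊆ K, IsCompact A → w ∈ T₁.Z A → φ w ∈ T₂.Z A

variable {T₁ : Thy K W₁} {T₂ : Thy K W₂} {s : ℤ}

/-- The mapping cone: `(v, w)` has degree `p` if `v` has degree `p + 1 - s` and `w` has degree
`p`; `d (v, w) = (d v, φ v + d w)`. -/
def cone (m : Mor T₁ T₂ s) : Thy K (W₁ × W₂) where
  gr p := (T₁.gr (p + 1 - s)).prod (T₂.gr p)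
  d := AddMonoidHom.prod (T₁.d.comp (AddMonoidHom.fst W₁ W₂))
    (m.φ.comp (AddMonoidHom.fst W₁ W₂) + T₂.d.comp (AddMonoidHom.snd W₁ W₂))
  Z A := (T₁.Z A).prod (T₂.Z A)
  low := min (T₁.low + s - 1) T₂.low
  two w := Prod.ext (T₁.two w.1) (T₂.two w.2)
  gr_low p hp w hw := by
    have h1 : p < T₁.low + s - 1 := lt_of_lt_of_le hp (min_le_left _ _)
    have h2 : p < T₂.low := lt_of_lt_of_le hp (min_le_right _ _)
    exact Prod.ext (T₁.gr_low _ (by linarith) _ hw.1) (T₂.gr_low _ h2 _ hw.2)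
  d_gr p w hw := by
    refine ⟨?_, ?_⟩
    · have := T₁.d_gr _ _ hw.1
      rwa [show p + 1 - s + 1 = p + 1 + 1 - s by ring] at this
    · refine add_mem ?_ (T₂.d_gr _ _ hw.2)
      have := m.gr _ _ hw.1
      rwa [show p + 1 - s + s = p + 1 by ring] at this
  d_Z p w hw A hA hAc h :=
    ⟨T₁.d_Z _ _ hw.1 A hA hAc h.1,
      add_mem (m.Z _ _ hw.1 A hA hAc h.1) (T₂.d_Z _ _ hw.2 A hA hAc h.2)⟩
  dd_Z p w hw A hA hAc := by
    refine ⟨T₁.dd_Z _ _ hw.1 A hA hAc, ?_⟩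
    show m.φ (T₁.d w.1) + T₂.d (m.φ w.1 + T₂.d w.2) ∈ T₂.Z A
    have h1 := m.d _ _ hw.1 A hA hAc
    have h2 := T₂.dd_Z _ _ hw.2 A hA hAc
    have h3 : m.φ (T₁.d w.1) + T₂.d (m.φ w.1 + T₂.d w.2) =
        T₂.d (m.φ w.1) + m.φ (T₁.d w.1) + T₂.d (T₂.d w.2) := by
      rw [map_add]; abel
    rw [h3]
    exact add_mem h1 h2
  anti A B hAB hB := AddSubgroup.prod_mono (T₁.anti A B hAB hB) (T₂.anti A B hAB hB)
  emp p w hw := ⟨T₁.emp _ _ hw.1, T₂.emp _ _ hw.2⟩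
  union A hA hAc B hB hBc w h1 h2 :=
    ⟨T₁.union A hA hAc B hB hBc _ h1.1 h2.1, T₂.union A hA hAc B hB hBc _ h1.2 h2.2⟩
  inter A hA hAc B hB hBc p w hw h := by
    obtain ⟨a₁, ha₁, a₂, ha₂, h1, h2, h3⟩ := T₁.inter A hA hAc B hB hBc _ _ hw.1 h.1
    obtain ⟨b₁, hb₁, b₂, hb₂, h4, h5, h6⟩ := T₂.inter A hA hAc B hB hBc _ _ hw.2 h.2
    exact ⟨(a₁, b₁), ⟨ha₁, hb₁⟩, (a₂, b₂), ⟨ha₂, hb₂⟩, ⟨h1, h4⟩, ⟨h2, h5⟩, Prod.ext h3 h6⟩
  pt y hy w h := by
    obtain ⟨r, hr, h1⟩ := T₁.pt y hy _ h.1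
    obtain ⟨r', hr', h2⟩ := T₂.pt y hy _ h.2
    refine ⟨min r r', lt_min hr hr', fun A hA hAc hAb => ⟨h1 A hA hAc ?_, h2 A hA hAc ?_⟩⟩
    · exact hAb.trans (Metric.closedBall_subset_closedBall (min_le_left _ _))
    · exact hAb.trans (Metric.closedBall_subset_closedBall (min_le_right _ _))

theorem cone_d (m : Mor T₁ T₂ s) (w : W₁ × W₂) :
    (cone m).d w = (T₁.d w.1, m.φ w.1 + T₂.d w.2) := rfl

/-- `φ` is surjective on the cohomology of degree `p` of `A`. -/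
def Mor.Surj (m : Mor T₁ T₂ s) (p : ℤ) (A : Set Y) : Prop :=
  ∀ w ∈ T₂.gr p, T₂.d w ∈ T₂.Z A → ∃ v ∈ T₁.gr (p - s), T₁.d v ∈ T₁.Z A ∧
    T₂.IsBd p A (w + m.φ v)

/-- `φ` is injective on the cohomology of degree `p - s` (source), `p` (target) of `A`. -/
def Mor.Inj (m : Mor T₁ T₂ s) (p : ℤ) (A : Set Y) : Prop :=
  ∀ v ∈ T₁.gr (p - s), T₁.d v ∈ T₁.Z A → T₂.IsBd p A (m.φ v) → T₁.IsBd (p - s) A v

theorem cone_acyc (m : Mor T₁ T₂ s) {p : ℤ} {A : Set Y} (hA : A ⊆ K) (hAc : IsCompact A)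
    (hs : m.Surj p A) (hi : m.Inj (p + 1) A) : (cone m).Acyc p A := by
  rintro ⟨v, w⟩ ⟨hv, hw⟩ ⟨h1, h2⟩
  change v ∈ T₁.gr (p + 1 - s) at hv
  change w ∈ T₂.gr p at hw
  change T₁.d v ∈ T₁.Z A at h1
  change m.φ v + T₂.d w ∈ T₂.Z A at h2
  obtain ⟨b, hb, h3⟩ := hi v hv h1 ⟨w, by rwa [add_sub_cancel_right], h2⟩
  rw [show p + 1 - s - 1 = p - s by ring] at hb
  -- `w + φ b` is a cocycle
  have h4 : T₂.d (w + m.φ b) ∈ T₂.Z A := by
    have h5 := m.d _ _ hb A hA hAc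
    have h6 : m.φ (v + T₁.d b) ∈ T₂.Z A := by
      refine m.Z (p + 1 - s) _ (add_mem hv ?_) A hA hAc h3
      have := T₁.d_gr _ _ hb
      rwa [show p - s + 1 = p + 1 - s by ring] at this
    have h7 := add_mem (add_mem h2 h5) h6
    have h8 : m.φ v + T₂.d w + (T₂.d (m.φ b) + m.φ (T₁.d b)) + m.φ (v + T₁.d b) =
        T₂.d (w + m.φ b) := by
      have h9 := T₂.two (m.φ v)
      have h10 := T₂.two (m.φ (T₁.d b))
      rw [map_add, map_add]
      calc m.φ v + T₂.d w + (T₂.d (m.φ b) + m.φ (T₁.d b)) + (m.φ v + m.φ (T₁.d b)) =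
          (m.φ v + m.φ v) + (m.φ (T₁.d b) + m.φ (T₁.d b)) + (T₂.d w + T₂.d (m.φ b)) := by abel
        _ = _ := by rw [h9, h10, zero_add, zero_add]
    rwa [h8] at h7
  have hφb : m.φ b ∈ T₂.gr p := by
    have := m.gr _ _ hb
    rwa [sub_add_cancel] at this
  obtain ⟨a, ha, h5, b', hb', h6⟩ := hs _ (add_mem hw hφb) h4
  refine ⟨(b + a, b'), ⟨?_, hb'⟩, ⟨?_, ?_⟩⟩
  · show b + a ∈ T₁.gr (p - 1 + 1 - s)
    rw [show p - 1 + 1 - s = p - s by ring]
    exact add_mem hb ha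
  · show v + T₁.d (b + a) ∈ T₁.Z A
    rw [map_add, ← add_assoc]
    exact add_mem h3 h5
  · show w + (m.φ (b + a) + T₂.d b') ∈ T₂.Z A
    rw [map_add]
    have : w + (m.φ b + m.φ a + T₂.d b') = w + m.φ b + m.φ a + T₂.d b' := by abel
    rw [this]
    exact h6

theorem surj_of_cone (m : Mor T₁ T₂ s) {p : ℤ} {A : Set Y} (h : (cone m).Acyc p A) :
    m.Surj p A := by
  intro w hw hdw
  obtain ⟨⟨a, b⟩, ⟨ha, hb⟩, ⟨h1, h2⟩⟩ := h (0, w) ⟨zero_mem _, hw⟩ ⟨by
    show T₁.d 0 ∈ _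
    rw [map_zero]; exact zero_mem _, by
    show m.φ 0 + T₂.d w ∈ _
    rw [map_zero, zero_add]; exact hdw⟩
  change a ∈ T₁.gr (p - 1 + 1 - s) at ha
  change b ∈ T₂.gr (p - 1) at hb
  change 0 + T₁.d a ∈ T₁.Z A at h1
  change w + (m.φ a + T₂.d b) ∈ T₂.Z A at h2
  rw [show p - 1 + 1 - s = p - s by ring] at ha
  rw [zero_add] at h1
  exact ⟨a, ha, h1, b, hb, by rwa [← add_assoc] at h2⟩

theorem inj_of_cone (m : Mor T₁ T₂ s) {p : ℤ} {A : Set Y} (h : (cone m).Acyc (p - 1) A) :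
    m.Inj p A := by
  rintro v hv hdv ⟨b, hb, h1⟩
  obtain ⟨⟨a, b'⟩, ⟨ha, -⟩, ⟨h2, -⟩⟩ := h (v, b) ⟨by
    show v ∈ T₁.gr (p - 1 + 1 - s)
    rwa [show p - 1 + 1 - s = p - s by ring], hb⟩ ⟨hdv, h1⟩
  change a ∈ T₁.gr (p - 1 - 1 + 1 - s) at ha
  change v + T₁.d a ∈ T₁.Z A at h2
  rw [show p - 1 - 1 + 1 - s = p - s - 1 by ring] at ha
  exact ⟨a, ha, h2⟩

/-- Comparison theorem, in degrees `≤ P`. -/
theorem compare_le (m : Mor T₁ T₂ s) {P : ℤ}
    (hpt : ∀ y ∈ K, ∀ p ≤ P, m.Surj p {y} ∧ m.Inj (p + 1) {y}) :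
    ∀ A ⊆ K, IsCompact A → ∀ p ≤ P, m.Surj p A ∧ m.Inj (p + 1) A := by
  intro A hA hAc p hp
  have h := (cone m).vanish (P := P) (fun y hy p hp =>
    cone_acyc m (singleton_subset_iff.2 hy) isCompact_singleton (hpt y hy p hp).1
      (hpt y hy p hp).2)
  refine ⟨surj_of_cone m (h p hp A hA hAc), inj_of_cone m ?_⟩
  rw [add_sub_cancel_right]
  exact h p hp A hA hAc

/-- Comparison theorem. -/
theorem compare (m : Mor T₁ T₂ s)
    (hpt : ∀ y ∈ K, ∀ p, m.Surj p {y} ∧ m.Inj p {y}) :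
    ∀ A ⊆ K, IsCompact A → ∀ p, m.Surj p A ∧ m.Inj p A := by
  intro A hA hAc p
  have h := compare_le m (P := p) (fun y hy q _ => ⟨(hpt y hy q).1, (hpt y hy (q + 1)).2⟩) A hA hAc
  refine ⟨(h p le_rfl).1, ?_⟩
  have := (h (p - 1) (by linarith)).2
  rwa [sub_add_cancel] at this

end Cone

/-! ### Shifted products -/

/-- A product of copies of a theory, the `i`-th shifted by `s i`: `(w i)` has degree `p` if `w i`
has degree `p - s i`. -/
def pi {W : Type w} [AddCommGroup W] {ι : Type*} [Fintype ι] (T : Thy K W) (s : ι → ℤ)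
    (hs : ∀ i, 0 ≤ s i) : Thy K (ι → W) where
  gr p := AddSubgroup.pi univ (fun i => T.gr (p - s i))
  d := AddMonoidHom.mk' (fun w i => T.d (w i)) (by
    intro a b
    funext i
    exact map_add T.d _ _)
  Z A := AddSubgroup.pi univ (fun _ => T.Z A)
  low := T.low
  two w := funext fun i => T.two (w i)
  gr_low p hp w hw := funext fun i => T.gr_low _ (by have := hs i; linarith) _ (hw i trivial)
  d_gr p w hw i _ := by
    have := T.d_gr _ _ (hw i trivial)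
    show T.d (w i) ∈ T.gr (p + 1 - s i)
    rwa [show p - s i + 1 = p + 1 - s i by ring] at this
  d_Z p w hw A hA hAc h i _ := T.d_Z _ _ (hw i trivial) A hA hAc (h i trivial)
  dd_Z p w hw A hA hAc i _ := T.dd_Z _ _ (hw i trivial) A hA hAc
  anti A B hAB hB w hw i _ := T.anti A B hAB hB (hw i trivial)
  emp p w hw i _ := T.emp _ _ (hw i trivial)
  union A hA hAc B hB hBc w h1 h2 i _ :=
    T.union A hA hAc B hB hBc _ (h1 i trivial) (h2 i trivial)
  inter A hA hAc B hB hBc p w hw h := by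
    have h1 : ∀ i, ∃ w₁ ∈ T.gr (p - s i), ∃ w₂ ∈ T.gr (p - s i), w₁ ∈ T.Z A ∧ w₂ ∈ T.Z B ∧
        w i = w₁ + w₂ := fun i => T.inter A hA hAc B hB hBc _ _ (hw i trivial) (h i trivial)
    choose a ha b hb h2 h3 h4 using h1
    exact ⟨a, fun i _ => ha i, b, fun i _ => hb i, fun i _ => h2 i, fun i _ => h3 i, funext h4⟩
  pt y hy w h := by
    classical
    have h1 : ∀ i, ∃ r > 0, ∀ A ⊆ K, IsCompact A → A ⊆ Metric.closedBall y r →
        w i ∈ T.Z A := fun i => T.pt y hy _ (h i trivial)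
    choose r hr h2 using h1
    rcases isEmpty_or_nonempty ι with he | hne
    · exact ⟨1, one_pos, fun A hA hAc hAb i _ => (he.false i).elim⟩
    · refine ⟨Finset.univ.inf' Finset.univ_nonempty r, ?_, fun A hA hAc hAb i _ =>
        h2 i A hA hAc (hAb.trans (Metric.closedBall_subset_closedBall
          (Finset.inf'_le r (Finset.mem_univ i))))⟩
      rw [gt_iff_lt, Finset.lt_inf'_iff]
      exact fun i _ => hr i

theorem pi_IsBd {W : Type w} [AddCommGroup W] {ι : Type*} [Fintype ι] (T : Thy K W) (s : ι → ℤ)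
    (hs : ∀ i, 0 ≤ s i) {p : ℤ} {A : Set Y} {w : ι → W} :
    (T.pi s hs).IsBd p A w ↔ ∀ i, T.IsBd (p - s i) A (w i) := by
  constructor
  · rintro ⟨v, hv, h⟩ i
    refine ⟨v i, ?_, h i trivial⟩
    have := hv i trivial
    change v i ∈ T.gr (p - 1 - s i) at this
    rwa [show p - 1 - s i = p - s i - 1 by ring] at this
  · intro h
    choose v hv h1 using h
    refine ⟨v, fun i _ => ?_, fun i _ => h1 i⟩
    show v i ∈ T.gr (p - 1 - s i)
    rw [show p - 1 - s i = p - s i - 1 by ring]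
    exact hv i

end Thy

/-! ### Theories of cochains -/

/-- A map from the compact subsets of `K` to compact sets that respects unions, intersections and
neighbourhoods of points. -/
structure SetMap {Y : Type v} {X : Type u} [MetricSpace Y] [MetricSpace X] (K : Set Y)
    (F : Set Y → Set X) : Prop where
  comp : ∀ A ⊆ K, IsCompact A → IsCompact (F A)
  mono : ∀ A B : Set Y, A ⊆ B → F A ⊆ F B
  emp : F ∅ = ∅
  union : ∀ A B : Set Y, F (A ∪ B) = F A ∪ F B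
  inter : ∀ A B : Set Y, F (A ∩ B) = F A ∩ F B
  pt : ∀ y ∈ K, ∀ r > 0, ∃ r' > 0, ∀ A ⊆ K, IsCompact A → A ⊆ Metric.closedBall y r' →
    F A ⊆ Metric.thickening r (F {y})

section

variable {X : Type u} {Y : Type v} [MetricSpace X] [MetricSpace Y] {K : Set Y} {F : Set Y → Set X}

/-- The theory `A ↦ H^p(F A, F A ∩ R)`. -/
def mkThy (hF : SetMap K F) (R : Set X) : Thy K (Cc X) where
  gr p := (Dg X p ⊓ Z R).toAddSubgroup
  d := (ddL (X := X)).toAddMonoidHom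
  Z A := (Z (F A)).toAddSubgroup
  low := 0
  two w := add_self w
  gr_low p hp w hw := Dg.neg hw.1 hp
  d_gr p w hw := ⟨dd_Dg hw.1, dd_Z hw.2⟩
  d_Z p w hw A hA hAc h := dd_Z h
  dd_Z p w hw A hA hAc := by
    show dd (dd w) ∈ Z (F A)
    rw [dd_dd]
    exact zero_mem _
  anti A B hAB _ w hw := Z_anti (hF.mono A B hAB) hw
  emp p w hw := by
    show w ∈ Z (F ∅)
    rw [hF.emp]
    exact Z_empty hw.1
  union A hA hAc B hB hBc w h1 h2 := by
    show w ∈ Z (F (A ∪ B))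
    rw [hF.union]
    exact Z_union h1 h2
  inter A hA hAc B hB hBc p w hw h := by
    change w ∈ Z (F (A ∩ B)) at h
    rw [hF.inter] at h
    obtain ⟨K', h1, h2⟩ := Z_inter (hF.comp A hA hAc) (hF.comp B hB hBc).isClosed h
    exact ⟨_, ⟨ind_Dg hw.1, ind_Z hw.2⟩, _, ⟨ind_Dg hw.1, ind_Z hw.2⟩, h1, h2,
      (ind_add_compl K' w).symm⟩
  pt y hy w h := by
    obtain ⟨r, hr, h1⟩ := Z_nhds (show w ∈ Z (F {y}) from h)
    obtain ⟨r', hr', h2⟩ := hF.pt y hy r hr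
    exact ⟨r', hr', fun A hA hAc hAb => h1 _ (h2 A hA hAc hAb)⟩

variable (hF : SetMap K F) (R : Set X)

theorem mkThy_gr {p : ℤ} {w : Cc X} : w ∈ (mkThy hF R).gr p ↔ w ∈ Dg X p ∧ w ∈ Z R := Iff.rfl
theorem mkThy_Z {A : Set Y} {w : Cc X} : w ∈ (mkThy hF R).Z A ↔ w ∈ Z (F A) := Iff.rfl
theorem mkThy_d {w : Cc X} : (mkThy hF R).d w = dd w := rfl
theorem mkThy_IsBd {p : ℤ} {A : Set Y} {w : Cc X} :
    (mkThy hF R).IsBd p A w ↔ Bd p (F A) R w := by
  constructor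
  · rintro ⟨v, ⟨h1, h2⟩, h3⟩
    exact ⟨v, h1, h2, h3⟩
  · rintro ⟨v, h1, h2, h3⟩
    exact ⟨v, ⟨h1, h2⟩, h3⟩

/-- The identity. -/
theorem SetMap.id (K : Set Y) : SetMap K (fun A : Set Y => A) where
  comp A _ h := h
  mono A B h := h
  emp := rfl
  union A B := rfl
  inter A B := rfl
  pt y hy r hr := by
    refine ⟨r / 2, by positivity, fun A _ _ hA x hx => ?_⟩
    have := hA hx
    rw [Metric.mem_closedBall] at this
    exact Metric.mem_thickening_iff.2 ⟨y, rfl, by linarith⟩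

/-- Preimages in a compact set. -/
theorem SetMap.preim {E : Set X} (hE : IsCompact E) {f : X → Y} (hf : CA f E) (K : Set Y) :
    SetMap K (fun A : Set Y => E ∩ f ⁻¹' A) where
  comp A _ h := by
    have hc : ContinuousOn f E := fun x hx => (hf x hx).continuousWithinAt
    exact hE.of_isClosed_subset (hc.preimage_isClosed_of_isClosed hE.isClosed h.isClosed)
      inter_subset_left
  mono A B h := inter_subset_inter_right _ (preimage_mono h)
  emp := by simp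
  union A B := by rw [preimage_union, inter_union_distrib_left]
  inter A B := by
    ext x
    simp only [mem_inter_iff, mem_preimage]
    tauto
  pt y hy r hr := by
    have hc : ContinuousOn f E := fun x hx => (hf x hx).continuousWithinAt
    set E' : Set X := E \ Metric.thickening r (E ∩ f ⁻¹' {y}) with hE'
    have hE'c : IsCompact E' := hE.diff Metric.isOpen_thickening
    rcases E'.eq_empty_or_nonempty with he | hne
    · refine ⟨1, one_pos, fun A _ _ _ x hx => ?_⟩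
      by_contra h
      have : x ∈ E' := ⟨hx.1, h⟩
      rw [he] at this
      exact this
    · have hcont : ContinuousOn (fun x => dist (f x) y) E' :=
        (continuous_id.dist continuous_const).comp_continuousOn (hc.mono sdiff_subset)
      obtain ⟨x₀, hx₀, hmin⟩ := hE'c.exists_isMinOn hne hcont
      have hpos : 0 < dist (f x₀) y := by
        rw [dist_pos]
        intro h
        exact hx₀.2 (Metric.self_subset_thickening hr _ ⟨hx₀.1, h⟩)
      refine ⟨dist (f x₀) y / 2, by positivity, fun A _ _ hA x hx => ?_⟩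
      by_contra h
      have h1 : x ∈ E' := ⟨hx.1, h⟩
      have h2 : dist (f x₀) y ≤ dist (f x) y := hmin h1
      have h3 := hA hx.2
      rw [Metric.mem_closedBall] at h3
      linarith

end

end Pool.Agent.VC
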