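import Pool.Agent.VC.Map

/-!
Points, the unit, long exact sequences, Mayer-Vietoris, excision, independence of the ambient
space.
-/

namespace Pool.Agent.VC

open Set Filter Topology

universe u v w

variable {X : Type u} {Y : Type v} {V : Type w}

/-! ### The unit -/

/-- The unit cochain: one on the lists of length one. -/
def one (X : Type u) : Cc X := fun l => if l.length = 1 then 1 else 0

theorem one_singleton (x : X) : one X [x] = 1 := rfl

theorem one_Dg : one X ∈ Dg X 0 := by
  intro l hl
  have h : l.length = 1 := by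
    by_contra h
    exact hl (if_neg h)
  refine ⟨?_, by rw [h]; rfl⟩
  rintro rfl
  simp at h

theorem dd_one : dd (one X) = 0 := by
  funext l
  rcases l with _ | ⟨x, l⟩
  · simp
  · rcases l with _ | ⟨y, l⟩
    · simp [one]
    · rcases l with _ | ⟨z, l⟩
      · have h : dd (one X) [x, y] = 1 + 1 := by
          simp [one]
        rw [h]
        exact two_zero _
      · by_contra h
        have := dd_len (fun l hl => (one_Dg (X := X) l hl).2) _ h
        simp only [List.length_cons, Nat.cast_add, Nat.cast_one] at this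
        omega

theorem pull_one (f : X → Y) : pull f (one Y) = one X := by
  funext l
  simp [one]

theorem one_cup {p : ℤ} {c : Cc X} (h : c ∈ Dg X p) : cup (one X) c = c := by
  funext l
  rcases l with _ | ⟨x, l⟩
  · rw [cup_nil, Dg.nil h]
  · rw [cup_cons, one_singleton, one_mul]
    have h1 : cup (sh (one X) x) c l = 0 := by
      have h2 : ∀ l' : List X, l' ∈ {l' : List X | l' ⊆ l} → True := fun _ _ => trivial
      -- `sh (one X) x` is supported on the empty list
      have key : ∀ (l : List X) (e : Cc X), (∀ l' : List X, l' ≠ [] → e l' = 0) →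
          cup e c l = 0 := by
        intro l
        induction l with
        | nil => intro e _; simp
        | cons y l ih =>
          intro e he
          rw [cup_cons, he [y] (by simp), zero_mul, zero_add]
          refine ih (sh e y) (fun l' _ => he _ (by simp))
      refine key l _ (fun l' hl' => ?_)
      rw [sh_apply, one, if_neg]
      simp only [List.length_cons]
      have := List.length_pos_of_ne_nil hl'
      omega
    rw [h1, add_zero]

theorem cup_one {p : ℤ} {c : Cc X} (h : c ∈ Dg X p) : cup c (one X) = c := by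
  have key : ∀ (l : List X) (c : Cc X), l ≠ [] → cup c (one X) l = c l := by
    intro l
    induction l with
    | nil => intro c h; exact absurd rfl h
    | cons x l ih =>
      intro c _
      rw [cup_cons]
      rcases l with _ | ⟨y, l⟩
      · rw [cup_nil, one_singleton, mul_one, add_zero]
      · rw [ih (sh c x) (by simp), sh_apply]
        have : one X (x :: y :: l) = 0 := by
          rw [one, if_neg]
          simp
        rw [this, mul_zero, zero_add]
  funext l
  by_cases hl : l = []
  · rw [hl, cup_nil, Dg.nil h]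
  · exact key l c hl

/-- The cochain that is one on the lists of length `p + 1`. -/
def kap (X : Type u) (p : ℤ) : Cc X := fun l => if l ≠ [] ∧ (l.length : ℤ) = p + 1 then 1 else 0

theorem kap_Dg (p : ℤ) : kap X p ∈ Dg X p := by
  intro l hl
  by_contra h
  exact hl (if_neg h)

/-- A cochain pulled back by a constant map. -/
theorem pull_const {p : ℤ} {c : Cc Y} (h : c ∈ Dg Y p) (y : Y) :
    pull (fun _ : X => y) c = c (List.replicate (p + 1).toNat y) • kap X p := by
  funext l
  rw [pull_apply, Pi.smul_apply, smul_eq_mul]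
  have h1 : l.map (fun _ => y) = List.replicate l.length y := by simp
  by_cases h2 : l ≠ [] ∧ (l.length : ℤ) = p + 1
  · rw [kap, if_pos h2, mul_one, h1]
    congr 2
    omega
  · rw [kap, if_neg h2, mul_zero]
    by_contra h3
    obtain ⟨h4, h5⟩ := h _ h3
    refine h2 ⟨?_, ?_⟩
    · rintro rfl
      exact h4 rfl
    · simpa using h5

section Metric

variable [MetricSpace X] [MetricSpace Y] [MetricSpace V]

theorem Cyc.one {A : Set X} : Cyc 0 A ∅ (VC.one X) :=
  ⟨one_Dg, Z_empty one_Dg, by rw [dd_one]; exact zero_mem _⟩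

/-- The unit is not a coboundary on a nonempty set. -/
theorem one_not_Bd {A B : Set X} (hA : A.Nonempty) : ¬ Bd 0 A B (VC.one X) := by
  rintro ⟨b, h1, -, h3⟩
  have hb : b = 0 := Dg.neg h1 (by norm_num)
  rw [hb, dd_zero, add_zero] at h3
  obtain ⟨ε, hε, h⟩ := h3
  obtain ⟨x, hx⟩ := hA
  have h4 := h [x] ⟨by simpa using Metric.self_subset_thickening hε A hx, by simpa using hε⟩
  rw [one_singleton] at h4
  exact one_ne_zero h4

/-- Negative degrees. -/
theorem Van.neg {p : ℤ} (hp : p < 0) (A B : Set X) : Van p A B := by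
  intro c hc
  rw [Dg.neg hc.deg hp]
  exact Bd.zero

/-- The empty set. -/
theorem Van.empty (p : ℤ) (B : Set X) : Van p (∅ : Set X) B := by
  intro c hc
  exact Bd.of_Z (Z_empty hc.deg)

theorem Van.self (p : ℤ) (A : Set X) : Van p A A := by
  intro c hc
  exact Bd.of_Z hc.rel

/-! ### Points -/

omit [MetricSpace Y] in
theorem dd_replicate (c : Cc Y) (y : Y) (n : ℕ) :
    dd c (List.replicate n y) = (n : ZMod 2) * c (List.replicate (n - 1) y) := by
  induction n generalizing c with
  | zero => simp
  | succ n ih =>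
    rw [List.replicate_succ, dd_cons, ih, sh_apply]
    rcases n with _ | n
    · simp
    · have h1 : y :: List.replicate (n + 1 - 1) y = List.replicate (n + 1) y := by
        simp [List.replicate_succ]
      rw [h1, Nat.add_sub_cancel]
      push_cast
      ring

/-- Cocycles of positive degree at a point are coboundaries. -/
theorem point_pos {p : ℤ} (hp : p ≠ 0) (x : X) : Van p ({x} : Set X) ∅ := by
  intro c hc
  rcases lt_or_gt_of_ne hp with hneg | hpos
  · exact Van.neg hneg _ _ c hc
  -- homotopy to the constant map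
  have h1 : Bd p {x} ∅ (pull (fun y : X => y) c + pull (fun _ : X => x) c) := by
    refine agree hc (CA.id _) (CA.of_continuous continuous_const _) isCompact_singleton
      isCompact_empty ?_ ?_ ?_
    · intro y hy
      simpa using hy
    · intro y hy
      exact hy
    · intro y hy
      exact absurd hy (notMem_empty y)
  have h2 : pull (fun y : X => y) c = c := by
    funext l
    simp
  rw [h2, pull_const hc.deg] at h1
  set n := (p + 1).toNat with hn
  have hn2 : 2 ≤ n := by omega
  set a := c (List.replicate n x) with ha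
  -- if `n` is even, `a = 0`
  obtain ⟨ε, hε, hz⟩ := hc.cyc
  have h3 : dd c (List.replicate (n + 1) x) = 0 := by
    refine hz _ ⟨?_, ?_⟩
    · intro y hy
      rw [List.eq_of_mem_replicate hy]
      exact Metric.self_subset_thickening hε _ rfl
    · intro y hy z hz
      rw [List.eq_of_mem_replicate hy, List.eq_of_mem_replicate hz, dist_self]
      exact hε
  rw [dd_replicate, Nat.add_sub_cancel] at h3
  have h4 : Bd p {x} ∅ (a • kap X p) := by
    rcases Nat.even_or_odd n with he | ho
    · have h5 : ((n + 1 : ℕ) : ZMod 2) = 1 := by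
        obtain ⟨m, hm⟩ := he
        rw [hm]
        push_cast
        rw [two_zero, zero_add]
      rw [h5, one_mul] at h3
      rw [ha, h3, zero_smul]
      exact Bd.zero
    · refine Bd.smul a ?_
      have h6 : dd (kap X (p - 1)) = kap X p := by
        have hn1 : ((n : ℕ) : ZMod 2) = 1 := by
          obtain ⟨m, hm⟩ := ho
          rw [hm]
          push_cast
          have := two_zero (m : ZMod 2)
          calc (2 : ZMod 2) * m + 1 = (m + m) + 1 := by ring
            _ = 1 := by rw [this, zero_add]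
        -- pull back from the constant map
        have h7 : kap X (p - 1) = pull (fun _ : X => x) (kap X (p - 1)) := by
          funext l
          simp [kap]
        rw [h7, dd_pull]
        funext l
        rw [pull_apply]
        have h8 : l.map (fun _ => x) = List.replicate l.length x := by simp
        rw [h8, dd_replicate]
        by_cases h9 : l ≠ [] ∧ (l.length : ℤ) = p + 1
        · have h10 : l.length = n := by omega
          have h11 : kap X (p - 1) (List.replicate (l.length - 1) x) = 1 := by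
            rw [kap, if_pos]
            refine ⟨?_, ?_⟩
            · intro h12
              have := congrArg List.length h12
              simp at this
              omega
            · simp
              omega
          rw [h11, h10, hn1, kap, if_pos h9, mul_one]
        · have h11 : kap X p l = 0 := if_neg h9
          rw [h11]
          have h12 : kap X (p - 1) (List.replicate (l.length - 1) x) = 0 := by
            rw [kap, if_neg]
            rintro ⟨h13, h14⟩
            apply h9
            rw [List.length_replicate] at h14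
            have h15 : l.length - 1 ≠ 0 := by
              intro h16
              rw [h16] at h13
              exact h13 rfl
            refine ⟨?_, by omega⟩
            rintro rfl
            simp at h15
          rw [h12, mul_zero]
      rw [← h6]
      exact Bd.of_dd (kap_Dg _) (Z_empty (kap_Dg _))
  have h5 := h1.add h4
  have h6 : c + a • kap X p + a • kap X p = c := by
    rw [add_assoc, add_self, add_zero]
  rwa [h6] at h5

/-- Cocycles of degree zero at a point are multiples of the unit. -/
theorem point_zero (x : X) {c : Cc X} (hc : Cyc 0 ({x} : Set X) ∅ c) :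
    c + c [x] • VC.one X ∈ Z ({x} : Set X) := by
  obtain ⟨ε, hε, hz⟩ := hc.cyc
  refine ⟨ε, hε, fun l hl => ?_⟩
  by_cases h1 : l.length = 1
  · obtain ⟨y, rfl⟩ := List.length_eq_one_iff.1 h1
    have hxy : dist y x < ε := by
      have := hl.1 y (by simp)
      rw [Metric.mem_thickening_iff] at this
      obtain ⟨z, hz, h⟩ := this
      rw [mem_singleton_iff.1 hz] at h
      exact h
    have h2 : dd c [x, y] = 0 := by
      refine hz _ ⟨?_, ?_⟩
      · intro z hz
        simp only [List.mem_cons, List.not_mem_nil, or_false] at hz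
        rcases hz with rfl | rfl
        · exact Metric.self_subset_thickening hε _ rfl
        · exact Metric.mem_thickening_iff.2 ⟨x, rfl, hxy⟩
      · intro z hz z' hz'
        simp only [List.mem_cons, List.not_mem_nil, or_false] at hz hz'
        rcases hz with rfl | rfl <;> rcases hz' with rfl | rfl
        · simpa using hε
        · rwa [dist_comm]
        · exact hxy
        · simpa using hε
    have h3 : dd c [x, y] = c [y] + c [x] := by
      simp
    rw [h3] at h2
    rw [Pi.add_apply, Pi.smul_apply, smul_eq_mul, one_singleton, mul_one]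
    exact h2
  · have h2 : c l = 0 := by
      by_contra h
      have := (hc.deg l h).2
      omega
    rw [Pi.add_apply, Pi.smul_apply, h2, VC.one, if_neg h1, smul_zero, add_zero]

/-! ### Long exact sequence of a triple `C ⊆ B ⊆ A` -/

variable {A B C : Set X} {p : ℤ} {c : Cc X}

/-- Exactness at `H^p(A, C)`. -/
theorem les_mid (h : Cyc p A C c) (hb : Bd p B C c) : ∃ c', Cyc p A B c' ∧ Bd p A C (c + c') := by
  obtain ⟨b, h1, h2, h3⟩ := hb
  have hdb : dd b ∈ Dg X p := by
    have := dd_Dg h1
    rwa [sub_add_cancel] at this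
  refine ⟨c + dd b, ⟨add_mem h.deg hdb, h3, ?_⟩, ?_⟩
  · rw [dd_add, dd_dd, add_zero]
    exact h.cyc
  · rw [← add_assoc, add_self, zero_add]
    exact Bd.of_dd h1 h2

/-- The connecting homomorphism is the coboundary. -/
theorem les_conn (h : Cyc p B C c) : Cyc (p + 1) A B (dd c) :=
  ⟨dd_Dg h.deg, h.cyc, by rw [dd_dd]; exact zero_mem _⟩

/-- Exactness at `H^p(B, C)`. -/
theorem les_right (hBC : C ⊆ B) (h : Cyc p B C c) (hb : Bd (p + 1) A B (dd c)) :
    ∃ c', Cyc p A C c' ∧ Bd p B C (c + c') := by
  obtain ⟨b, h1, h2, h3⟩ := hb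
  rw [add_sub_cancel_right] at h1
  refine ⟨c + b, ⟨add_mem h.deg h1, add_mem h.rel (Z_anti hBC h2), ?_⟩, ?_⟩
  · rw [dd_add]
    exact h3
  · rw [← add_assoc, add_self, zero_add]
    exact Bd.of_Z h2

/-- Exactness at `H^{p+1}(A, B)`. -/
theorem les_left (hAB : B ⊆ A) (h : Cyc (p + 1) A B c) (hb : Bd (p + 1) A C c) :
    ∃ b, Cyc p B C b ∧ Bd (p + 1) A B (c + dd b) := by
  obtain ⟨b, h1, h2, h3⟩ := hb
  rw [add_sub_cancel_right] at h1
  refine ⟨b, ⟨h1, h2, ?_⟩, Bd.of_Z h3⟩
  have h4 := add_mem h.rel (Z_anti hAB h3)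
  rwa [← add_assoc, add_self, zero_add] at h4

/-- The composition of two consecutive maps vanishes: `H^p(A, B) → H^p(A, C) → H^p(B, C)`. -/
theorem les_comp (h : Cyc p A B c) : Bd p B C c := Bd.of_Z h.rel

theorem Van.mid (hCB : C ⊆ B) (h1 : Van p A B) (h2 : Van p B C) (hBA : B ⊆ A) : Van p A C := by
  intro c hc
  obtain ⟨c', hc', h3⟩ := les_mid hc (h2 c (hc.mono hBA Subset.rfl))
  have h4 : Bd p A C c' := (h1 c' hc').mono Subset.rfl hCB
  have h5 := h3.add h4
  rwa [add_assoc, add_self, add_zero] at h5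

theorem Van.right (hCB : C ⊆ B) (h1 : Van p A C) (h2 : Van (p + 1) A B) (hBA : B ⊆ A) :
    Van p B C := by
  intro c hc
  obtain ⟨c', hc', h3⟩ := les_right hCB hc (h2 _ (les_conn hc))
  have h4 : Bd p B C c' := (h1 c' hc').mono hBA Subset.rfl
  have h5 := h3.add h4
  rwa [add_assoc, add_self, add_zero] at h5

theorem Van.left (hCB : C ⊆ B) (hBA : B ⊆ A) (h1 : Van (p + 1) A C) (h2 : Van p B C) :
    Van (p + 1) A B := by
  intro c hc
  have hc' : Cyc (p + 1) A C c := ⟨hc.deg, Z_anti hCB hc.rel, hc.cyc⟩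
  obtain ⟨b, hb, h3⟩ := les_left hBA hc (h1 c hc')
  obtain ⟨e, he1, he2, he3⟩ := h2 b hb
  -- b + dd e ∈ Z B, of degree p
  have hde : dd e ∈ Dg X p := by
    have := dd_Dg he1
    rwa [sub_add_cancel] at this
  have h4 : Bd (p + 1) A B (dd b) := by
    have h5 : dd b = dd (b + dd e) := by rw [dd_add, dd_dd, add_zero]
    rw [h5]
    exact Bd.of_dd (by rw [add_sub_cancel_right]; exact add_mem hb.deg hde) he3
  have h5 := h3.add h4
  rwa [add_assoc, add_self, add_zero] at h5

/-! ### Mayer-Vietoris -/

/-- Relative groups `H^p(A ∪ B, B)` are the groups `H^p(A, A ∩ B)`: surjectivity. -/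
theorem exc_surj (hA : IsCompact A) (hB : IsClosed B) (h : Cyc p A (A ∩ B) c) :
    ∃ c', Cyc p (A ∪ B) B c' ∧ c + c' ∈ Z A := by
  obtain ⟨K, h1, h2⟩ := Z_inter hA hB h.rel
  refine ⟨ind Kᶜ c, ⟨ind_Dg h.deg, h2, ?_⟩, ?_⟩
  · refine Z_union ?_ (dd_Z h2)
    have h3 : ind Kᶜ c = c + ind K c := by
      have h4 := ind_add_compl K c
      have h5 := add_self (ind K c)
      calc ind Kᶜ c = (ind K c + ind K c) + ind Kᶜ c := by rw [h5, zero_add]
        _ = (ind K c + ind Kᶜ c) + ind K c := by abel
        _ = _ := by rw [h4]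
    rw [h3, dd_add]
    exact add_mem h.cyc (dd_Z h1)
  · have h3 : c + ind Kᶜ c = ind K c := by
      have h4 := ind_add_compl K c
      have h5 := add_self (ind Kᶜ c)
      calc c + ind Kᶜ c = (ind K c + ind Kᶜ c) + ind Kᶜ c := by rw [h4]
        _ = ind K c + (ind Kᶜ c + ind Kᶜ c) := by abel
        _ = _ := by rw [h5, add_zero]
    rw [h3]
    exact h1

/-- Injectivity of excision. -/
theorem exc_inj (hA : IsCompact A) (hB : IsClosed B) (h : Cyc p (A ∪ B) B c)
    (hb : Bd p A (A ∩ B) c) : Bd p (A ∪ B) B c := by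
  obtain ⟨b, h1, h2, h3⟩ := hb
  obtain ⟨K, h4, h5⟩ := Z_inter hA hB h2
  refine ⟨ind Kᶜ b, ind_Dg h1, h5, Z_union ?_ (add_mem h.rel (dd_Z h5))⟩
  have h6 : ind Kᶜ b = b + ind K b := by
    have h7 := ind_add_compl K b
    have h8 := add_self (ind K b)
    calc ind Kᶜ b = (ind K b + ind K b) + ind Kᶜ b := by rw [h8, zero_add]
      _ = (ind K b + ind Kᶜ b) + ind K b := by abel
      _ = _ := by rw [h7]
  rw [h6, dd_add, ← add_assoc]
  exact add_mem h3 (dd_Z h4)

theorem Van.exc_iff (hA : IsCompact A) (hB : IsClosed B) :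
    Van p (A ∪ B) B ↔ Van p A (A ∩ B) := by
  constructor
  · intro h c hc
    obtain ⟨c', hc', h1⟩ := exc_surj hA hB hc
    have h2 : Bd p A (A ∩ B) c' := (h c' hc').mono subset_union_left inter_subset_right
    have h3 : Bd p A (A ∩ B) (c + c') := Bd.of_Z h1
    have h5 := h3.add h2
    rwa [add_assoc, add_self, add_zero] at h5
  · intro h c hc
    exact exc_inj hA hB hc (h c (hc.mono subset_union_left inter_subset_right))

/-- Mayer-Vietoris, exactness at the union: a class that vanishes on both sets comes from the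
intersection; in particular it vanishes if the cohomology of the intersection vanishes. -/
theorem mv_left (h1 : Bd p A ∅ c) (h2 : Bd p B ∅ c) : ∃ b b₁ b₂, Cyc (p - 1) (A ∩ B) ∅ b ∧ b₁ ∈ Dg X (p - 1) ∧
      b₂ ∈ Dg X (p - 1) ∧ c + dd b₁ ∈ Z A ∧ c + dd b₂ ∈ Z B ∧ b = b₁ + b₂ := by
  obtain ⟨b₁, hb₁, -, h3⟩ := h1
  obtain ⟨b₂, hb₂, -, h4⟩ := h2
  refine ⟨b₁ + b₂, b₁, b₂, ⟨add_mem hb₁ hb₂, Z_empty (add_mem hb₁ hb₂), ?_⟩, hb₁, hb₂, h3, h4,
    rfl⟩
  have h5 := add_mem (Z_anti (inter_subset_left (t := B)) h3)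
    (Z_anti (inter_subset_right (s := A)) h4)
  have h6 : c + dd b₁ + (c + dd b₂) = dd (b₁ + b₂) := by
    have := add_self c
    rw [dd_add]
    calc c + dd b₁ + (c + dd b₂) = (c + c) + (dd b₁ + dd b₂) := by abel
      _ = _ := by rw [this, zero_add]
  rwa [h6] at h5

/-- Mayer-Vietoris gluing. -/
theorem mv_glue (hA : IsCompact A) (hB : IsClosed B) {c₁ c₂ : Cc X} (h1 : Cyc p A ∅ c₁)
    (h2 : Cyc p B ∅ c₂) (h3 : Bd p (A ∩ B) ∅ (c₁ + c₂)) :
    ∃ c, Cyc p (A ∪ B) ∅ c ∧ Bd p A ∅ (c + c₁) ∧ Bd p B ∅ (c + c₂) := by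
  obtain ⟨b, hb, -, h4⟩ := h3
  have hdb : dd b ∈ Dg X p := by
    have := dd_Dg hb
    rwa [sub_add_cancel] at this
  obtain ⟨K, h5, h6⟩ := Z_inter hA hB h4
  set w := c₁ + c₂ + dd b with hw
  have hwd : w ∈ Dg X p := add_mem (add_mem h1.deg h2.deg) hdb
  have hsum := ind_add_compl K w
  -- c := c₁ + ind K w = c₂ + dd b + ind Kᶜ w
  have heq : c₁ + ind K w = c₂ + dd b + ind Kᶜ w := by
    have h7 := add_self (c₂ + dd b)
    have h8 := add_self (ind K w)
    calc c₁ + ind K w = c₁ + ind K w + ((c₂ + dd b) + (c₂ + dd b)) := by rw [h7, add_zero]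
      _ = w + ind K w + (c₂ + dd b) := by rw [hw]; abel
      _ = (ind K w + ind Kᶜ w) + ind K w + (c₂ + dd b) := by rw [hsum]
      _ = (ind K w + ind K w) + (c₂ + dd b + ind Kᶜ w) := by abel
      _ = _ := by rw [h8, zero_add]
  refine ⟨c₁ + ind K w, ⟨add_mem h1.deg (ind_Dg hwd), Z_empty (add_mem h1.deg (ind_Dg hwd)),
    Z_union ?_ ?_⟩, ?_, ?_⟩
  · rw [dd_add]
    exact add_mem h1.cyc (dd_Z h5)
  · rw [heq, dd_add, dd_add, dd_dd, add_zero]
    exact add_mem h2.cyc (dd_Z h6)
  · have h9 : c₁ + ind K w + c₁ = ind K w := by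
      rw [add_comm c₁ (ind K w), add_assoc, add_self, add_zero]
    rw [h9]
    exact Bd.of_Z h5
  · rw [heq]
    have h9 : c₂ + dd b + ind Kᶜ w + c₂ = dd b + ind Kᶜ w := by
      have := add_self c₂
      calc c₂ + dd b + ind Kᶜ w + c₂ = (c₂ + c₂) + (dd b + ind Kᶜ w) := by abel
        _ = _ := by rw [this, zero_add]
    rw [h9]
    exact (Bd.of_dd hb (Z_empty hb)).add (Bd.of_Z h6)

/-- Vanishing on a union. -/
theorem Van.union (hA : IsCompact A) (hB : IsCompact B) (h1 : Van p A ∅) (h2 : Van p B ∅)
    (h3 : Van (p - 1) (A ∩ B) ∅) : Van p (A ∪ B) ∅ := by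
  intro c hc
  obtain ⟨b, b₁, b₂, hb, hb₁, hb₂, h4, h5, rfl⟩ := mv_left
    (h1 c (hc.mono subset_union_left Subset.rfl)) (h2 c (hc.mono subset_union_right Subset.rfl))
  obtain ⟨e, he, -, h6⟩ := h3 _ hb
  have hde : dd e ∈ Dg X (p - 1) := by
    have := dd_Dg he
    rwa [sub_add_cancel] at this
  obtain ⟨K, h7, h8⟩ := Z_inter hA hB.isClosed h6
  set w := b₁ + b₂ + dd e with hw
  have hwd : w ∈ Dg X (p - 1) := add_mem (add_mem hb₁ hb₂) hde
  have hsum := ind_add_compl K w
  have heq : b₁ + ind K w = b₂ + dd e + ind Kᶜ w := by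
    have h9 := add_self (b₂ + dd e)
    have h10 := add_self (ind K w)
    calc b₁ + ind K w = b₁ + ind K w + ((b₂ + dd e) + (b₂ + dd e)) := by rw [h9, add_zero]
      _ = w + ind K w + (b₂ + dd e) := by rw [hw]; abel
      _ = (ind K w + ind Kᶜ w) + ind K w + (b₂ + dd e) := by rw [hsum]
      _ = (ind K w + ind K w) + (b₂ + dd e + ind Kᶜ w) := by abel
      _ = _ := by rw [h10, zero_add]
  refine ⟨b₁ + ind K w, add_mem hb₁ (ind_Dg hwd), Z_empty (add_mem hb₁ (ind_Dg hwd)),
    Z_union ?_ ?_⟩
  · rw [dd_add, ← add_assoc]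
    exact add_mem h4 (dd_Z h7)
  · rw [heq, dd_add, dd_add, dd_dd, add_zero, ← add_assoc]
    exact add_mem h5 (dd_Z h8)

/-- The connecting homomorphism of Mayer-Vietoris: for a cocycle `b` of the intersection there is
a cocycle of the union that is `dd b₁` on `A` and `dd b₂` on `B`, where `b = b₁ + b₂`. -/
theorem mv_conn (hA : IsCompact A) (hB : IsClosed B) {b : Cc X} (h : Cyc p (A ∩ B) ∅ b) :
    ∃ c, Cyc (p + 1) (A ∪ B) ∅ c ∧ c + dd b ∈ Z A ∧ c ∈ Z B := by
  obtain ⟨K, h1, h2⟩ := Z_inter hA hB h.cyc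
  have hd : dd b ∈ Dg X (p + 1) := dd_Dg h.deg
  have hsum := ind_add_compl K (dd b)
  have heq : ind Kᶜ (dd b) = dd b + ind K (dd b) := by
    have h8 := add_self (ind K (dd b))
    calc ind Kᶜ (dd b) = (ind K (dd b) + ind K (dd b)) + ind Kᶜ (dd b) := by rw [h8, zero_add]
      _ = (ind K (dd b) + ind Kᶜ (dd b)) + ind K (dd b) := by abel
      _ = _ := by rw [hsum]
  refine ⟨ind Kᶜ (dd b), ⟨ind_Dg hd, Z_empty (ind_Dg hd), Z_union ?_ (dd_Z h2)⟩, ?_, h2⟩
  · rw [heq, dd_add, dd_dd, zero_add]
    exact dd_Z h1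
  · rw [heq, add_comm (dd b), add_assoc, add_self, add_zero]
    exact h1

end Metric

end Pool.Agent.VC
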