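import Pool.Agent.VC.Map

/-!
Vietoris cohomology with coefficients mod 2: more on maps (supplement to `VC/Map.lean`).

Extension of continuous functions from compact sets, homotopies that are defined on `A × [0,1]`
only, transport of vanishing, constant cochains, points, contractible compact sets are acyclic.
`PMap f A A' B B'`: `f` is uniformly continuous at the points of `A` and maps `(A, A')` to
`(B, B')`; `A'` need not be closed.
-/

set_option autoImplicit false
set_option linter.unusedSectionVars false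
set_option linter.unusedVariables false

namespace Pool.Agent.VC.MX

open Set Filter Topology

universe u v w

variable {X : Type u} {Y : Type v} {V : Type w}
variable [MetricSpace X] [MetricSpace Y] [MetricSpace V]

/-! ### Uniform continuity at the points of a compact set -/

/-- Uniform continuity of `f` at the points of `A`. -/
def UAt (f : X → Y) (A : Set X) : Prop :=
  ∀ ε > 0, ∃ δ > 0, ∀ a ∈ A, ∀ x, dist x a < δ → dist (f x) (f a) < ε

theorem UAt.mono {f : X → Y} {A A' : Set X} (h : UAt f A) (hA : A' ⊆ A) : UAt f A' := by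
  intro ε hε
  obtain ⟨δ, hδ, h'⟩ := h ε hε
  exact ⟨δ, hδ, fun a ha => h' a (hA ha)⟩

theorem uAt_of_CA {f : X → Y} {A : Set X} (hA : IsCompact A) (h : CA f A) : UAt f A := by
  intro ε hε
  have h1 := hA.uniformContinuousAt_of_continuousAt f h (Metric.dist_mem_uniformity hε)
  obtain ⟨δ, hδ, h2⟩ := Metric.mem_uniformity_dist.1 h1
  refine ⟨δ, hδ, fun a ha x hx => ?_⟩
  rw [dist_comm] at hx
  have h3 : dist (f a) (f x) < ε := h2 hx ha
  rwa [dist_comm] at h3

/-- Two functions that are equal on `A` map small lists near `A` to joint small lists. -/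
theorem UAt.small2 {f g : X → Y} {A : Set X} {B : Set Y} (hf : UAt f A) (hg : UAt g A)
    (hfg : EqOn f g A) (hB : MapsTo f A B) {ε : ℝ} (hε : 0 < ε) :
    ∃ δ > 0, ∀ l ∈ Small A δ, l.map f ++ l.map g ∈ Small B ε := by
  obtain ⟨δ₁, h1, h1'⟩ := hf (ε / 2) (by positivity)
  obtain ⟨δ₂, h2, h2'⟩ := hg (ε / 2) (by positivity)
  have hm : 0 < min δ₁ δ₂ := lt_min h1 h2
  refine ⟨min δ₁ δ₂ / 2, by positivity, fun l hl => ?_⟩
  -- every member of the joint list is near `f a`, for any `a ∈ A` near a member of `l`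
  have key : ∀ x ∈ l, ∀ a ∈ A, dist x a < min δ₁ δ₂ / 2 → ∀ y ∈ l,
      dist (f y) (f a) < ε / 2 ∧ dist (g y) (f a) < ε / 2 := by
    intro x hx a ha hxa y hy
    have h3 : dist y a < min δ₁ δ₂ := by
      have := dist_triangle y x a
      have := hl.2 y hy x hx
      linarith
    refine ⟨h1' a ha y (lt_of_lt_of_le h3 (min_le_left _ _)), ?_⟩
    rw [hfg ha]
    exact h2' a ha y (lt_of_lt_of_le h3 (min_le_right _ _))
  have mem : ∀ y ∈ l.map f ++ l.map g, ∃ x ∈ l, y = f x ∨ y = g x := by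
    intro y hy
    rcases List.mem_append.1 hy with h | h
    · obtain ⟨x, hx, rfl⟩ := List.mem_map.1 h
      exact ⟨x, hx, Or.inl rfl⟩
    · obtain ⟨x, hx, rfl⟩ := List.mem_map.1 h
      exact ⟨x, hx, Or.inr rfl⟩
  refine ⟨fun y hy => ?_, fun y hy z hz => ?_⟩
  · obtain ⟨x, hx, h⟩ := mem y hy
    obtain ⟨a, ha, hxa⟩ := Metric.mem_thickening_iff.1 (hl.1 x hx)
    have h3 := key x hx a ha hxa x hx
    refine Metric.mem_thickening_iff.2 ⟨f a, hB ha, ?_⟩
    rcases h with rfl | rfl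
    · linarith [h3.1]
    · linarith [h3.2]
  · obtain ⟨x, hx, h⟩ := mem y hy
    obtain ⟨x', hx', h'⟩ := mem z hz
    obtain ⟨a, ha, hxa⟩ := Metric.mem_thickening_iff.1 (hl.1 x hx)
    have h3 := key x hx a ha hxa x hx
    have h4 := key x hx a ha hxa x' hx'
    have h5 : dist y (f a) < ε / 2 := by
      rcases h with rfl | rfl
      · exact h3.1
      · exact h3.2
    have h6 : dist z (f a) < ε / 2 := by
      rcases h' with rfl | rfl
      · exact h4.1
      · exact h4.2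
    have := dist_triangle_right y z (f a)
    linarith

theorem UAt.small {f : X → Y} {A : Set X} {B : Set Y} (hf : UAt f A) (hB : MapsTo f A B)
    {ε : ℝ} (hε : 0 < ε) : ∃ δ > 0, ∀ l ∈ Small A δ, l.map f ∈ Small B ε := by
  obtain ⟨δ, hδ, h⟩ := hf.small2 hf (fun _ _ => rfl) hB hε
  exact ⟨δ, hδ, fun l hl => Small.cl B ε _ (h l hl) _ (List.subset_append_left _ _)⟩

theorem UAt.pull_Z {f : X → Y} {A : Set X} {B : Set Y} (hf : UAt f A) (hB : MapsTo f A B)
    {c : Cc Y} (hc : c ∈ Z B) : pull f c ∈ Z A := by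
  obtain ⟨ε, hε, hc⟩ := hc
  obtain ⟨δ, hδ, h⟩ := hf.small hB hε
  exact ⟨δ, hδ, fun l hl => hc _ (h l hl)⟩

theorem UAt.pr_Z {f g : X → Y} {A : Set X} {B : Set Y} (hf : UAt f A) (hg : UAt g A)
    (hfg : EqOn f g A) (hB : MapsTo f A B) {c : Cc Y} (hc : c ∈ Z B) : pr f g c ∈ Z A := by
  obtain ⟨ε, hε, hc⟩ := hc
  obtain ⟨δ, hδ, h⟩ := hf.small2 hg hfg hB hε
  exact ⟨δ, hδ, fun l hl => pr_van f g fun l' hl' => hc _ (Small.cl B ε _ (h l hl) _ hl')⟩

/-! ### Induced maps -/

/-- `f` is continuous at the points of the compact set `A` and maps `(A, A')` to `(B, B')`. -/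
structure PMap (f : X → Y) (A A' : Set X) (B B' : Set Y) : Prop where
  uat : UAt f A
  sub : A' ⊆ A
  maps : MapsTo f A B
  maps' : MapsTo f A' B'

theorem PMap.of_CA {f : X → Y} {A A' : Set X} {B B' : Set Y} (hA : IsCompact A) (hf : CA f A)
    (hs : A' ⊆ A) (h : MapsTo f A B) (h' : MapsTo f A' B') : PMap f A A' B B' :=
  ⟨uAt_of_CA hA hf, hs, h, h'⟩

theorem PMap.of_continuous {f : X → Y} {A A' : Set X} {B B' : Set Y} (hA : IsCompact A)
    (hf : Continuous f) (hs : A' ⊆ A) (h : MapsTo f A B) (h' : MapsTo f A' B') :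
    PMap f A A' B B' := PMap.of_CA hA (CA.of_continuous hf A) hs h h'

theorem UAt.comp {f : X → Y} {g : Y → V} {A : Set X} {B : Set Y} (hf : UAt f A) (hg : UAt g B)
    (h : MapsTo f A B) : UAt (g ∘ f) A := by
  intro ε hε
  obtain ⟨δ, hδ, h1⟩ := hg ε hε
  obtain ⟨δ', hδ', h2⟩ := hf δ hδ
  exact ⟨δ', hδ', fun a ha x hx => h1 _ (h ha) _ (h2 a ha x hx)⟩

theorem PMap.comp {f : X → Y} {g : Y → V} {A A' : Set X} {B B' : Set Y} {C C' : Set V}
    (hf : PMap f A A' B B') (hg : PMap g B B' C C') : PMap (g ∘ f) A A' C C' :=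
  ⟨hf.uat.comp hg.uat hf.maps, hf.sub, hg.maps.comp hf.maps, hg.maps'.comp hf.maps'⟩

theorem UAt.id (A : Set X) : UAt (id : X → X) A := fun ε hε => ⟨ε, hε, fun _ _ _ h => h⟩

theorem PMap.id {A A' : Set X} (h : A' ⊆ A) : PMap (id : X → X) A A' A A' :=
  ⟨UAt.id A, h, fun _ h => h, fun _ h => h⟩

theorem cyc_pull {p : ℤ} {f : X → Y} {A A' : Set X} {B B' : Set Y} {c : Cc Y}
    (hf : PMap f A A' B B') (h : Cyc p B B' c) : Cyc p A A' (pull f c) :=
  ⟨pull_Dg f h.deg, (hf.uat.mono hf.sub).pull_Z hf.maps' h.rel, by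
    rw [dd_pull]; exact hf.uat.pull_Z hf.maps h.cyc⟩

theorem bd_pull {p : ℤ} {f : X → Y} {A A' : Set X} {B B' : Set Y} {c : Cc Y}
    (hf : PMap f A A' B B') (h : Bd p B B' c) : Bd p A A' (pull f c) := by
  obtain ⟨b, h1, h2, h3⟩ := h
  refine ⟨VC.pull f b, pull_Dg f h1, (hf.uat.mono hf.sub).pull_Z hf.maps' h2, ?_⟩
  rw [dd_pull, ← pull_add]
  exact hf.uat.pull_Z hf.maps h3

/-- Contiguity at a fixed scale. -/
theorem bd_of_contig {p : ℤ} {f g : X → Y} {A A' : Set X} {B B' : Set Y} {c : Cc Y} {ε δ : ℝ}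
    (hd : c ∈ Dg Y p) (hc' : ∀ l ∈ Small B' ε, c l = 0) (hc : ∀ l ∈ Small B ε, dd c l = 0)
    (hδ : 0 < δ) (h : ∀ l ∈ Small A δ, l.map f ++ l.map g ∈ Small B ε)
    (h' : ∀ l ∈ Small A' δ, l.map f ++ l.map g ∈ Small B' ε) :
    Bd p A A' (VC.pull f c + VC.pull g c) := by
  refine ⟨pr f g c, pr_Dg f g hd, ⟨δ, hδ, fun l hl => pr_van f g fun l' hl' =>
    hc' _ (Small.cl B' ε _ (h' l hl) _ hl')⟩, δ, hδ, fun l hl => ?_⟩
  have h1 := prism_apply f g c l
  have h2 : pr f g (dd c) l = 0 := pr_van f g fun l' hl' =>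
    hc _ (Small.cl B ε _ (h l hl) _ hl')
  rw [h2, add_zero] at h1
  simp only [Pi.add_apply, pull_apply]
  rw [h1]
  exact two_zero _

/-- The induced map depends only on the restriction to `A`. -/
theorem bd_of_eqOn {p : ℤ} {f g : X → Y} {A A' : Set X} {B B' : Set Y} {c : Cc Y}
    (hf : PMap f A A' B B') (hg : PMap g A A' B B') (hfg : EqOn f g A) (hc : Cyc p B B' c) :
    Bd p A A' (VC.pull f c + VC.pull g c) := by
  obtain ⟨ε₁, h1, h1'⟩ := hc.rel
  obtain ⟨ε₂, h2, h2'⟩ := hc.cyc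
  have hm : 0 < min ε₁ ε₂ := lt_min h1 h2
  obtain ⟨δ₁, h3, h3'⟩ := hf.uat.small2 hg.uat hfg hf.maps hm
  obtain ⟨δ₂, h4, h4'⟩ := (hf.uat.mono hf.sub).small2 (hg.uat.mono hf.sub) (hfg.mono hf.sub)
    hf.maps' hm
  refine bd_of_contig (ε := min ε₁ ε₂) (δ := min δ₁ δ₂) hc.deg
    (fun l hl => h1' l (Small.mono Subset.rfl (min_le_left _ _) hl))
    (fun l hl => h2' l (Small.mono Subset.rfl (min_le_right _ _) hl)) (lt_min h3 h4)
    (fun l hl => h3' l (Small.mono Subset.rfl (min_le_left _ _) hl))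
    (fun l hl => h4' l (Small.mono Subset.rfl (min_le_right _ _) hl))

theorem bd_trans {p : ℤ} {A A' : Set X} {a b c : Cc X} (h : Bd p A A' (a + b))
    (h' : Bd p A A' (b + c)) : Bd p A A' (a + c) := by
  have h1 := h.add h'
  have e : a + b + (b + c) = a + c + (b + b) := by abel
  rwa [e, add_self, add_zero] at h1

theorem bd_symm {p : ℤ} {A A' : Set X} {a b : Cc X} (h : Bd p A A' (a + b)) :
    Bd p A A' (b + a) := by rwa [add_comm] at h

theorem bd_cancel {p : ℤ} {A A' : Set X} {a b : Cc X} (h : Bd p A A' (a + b))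
    (h' : Bd p A A' b) : Bd p A A' a := by
  have h1 := h.add h'
  have e : a + b + b = a + (b + b) := by abel
  rwa [e, add_self, add_zero] at h1

/-! ### Homotopies -/

/-- Homotopy invariance. `F` is continuous at the points of `A × [0,1]`. -/
theorem bd_of_homotopy {p : ℤ} {F : X × ℝ → Y} {A A' : Set X} {B B' : Set Y} {c : Cc Y}
    (hF : UAt F (A ×ˢ Icc (0 : ℝ) 1)) (hs : A' ⊆ A)
    (hB : MapsTo F (A ×ˢ Icc (0 : ℝ) 1) B) (hB' : MapsTo F (A' ×ˢ Icc (0 : ℝ) 1) B')
    (hc : Cyc p B B' c) :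
    Bd p A A' (VC.pull (fun x => F (x, 0)) c + VC.pull (fun x => F (x, 1)) c) := by
  obtain ⟨ε₁, h1, h1'⟩ := hc.rel
  obtain ⟨ε₂, h2, h2'⟩ := hc.cyc
  have hm : 0 < min ε₁ ε₂ := lt_min h1 h2
  obtain ⟨δ, hδ, h3⟩ := hF (min ε₁ ε₂ / 2) (by positivity)
  obtain ⟨n, hn⟩ := exists_nat_gt (1 / δ)
  have hn0 : (0 : ℝ) < n := lt_trans (by positivity) hn
  have hn1 : 1 / (n : ℝ) < δ := by
    rw [div_lt_iff₀ hn0]
    rw [div_lt_iff₀ hδ] at hn
    linarith
  -- the points near `A`
  have key : ∀ (S : Set X), S ⊆ A → ∀ (T : Set Y), MapsTo F (S ×ˢ Icc (0 : ℝ) 1) T →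
      ∀ k : ℕ, k + 1 ≤ n → ∀ l ∈ Small S (δ / 2),
      l.map (fun x => F (x, (k : ℝ) / n)) ++ l.map (fun x => F (x, ((k + 1 : ℕ) : ℝ) / n)) ∈
        Small T (min ε₁ ε₂) := by
    intro S hS T hT k hk l hl
    have hk0 : (0 : ℝ) ≤ (k : ℝ) / n := by positivity
    have hk2 : ((k + 1 : ℕ) : ℝ) / n ≤ 1 := by
      rw [div_le_one hn0]
      exact_mod_cast hk
    have hk3 : ((k + 1 : ℕ) : ℝ) / n = (k : ℝ) / n + 1 / n := by
      push_cast
      ring
    have hk1 : (k : ℝ) / n ≤ 1 := by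
      have : 0 < 1 / (n : ℝ) := by positivity
      linarith
    have near : ∀ x ∈ l, ∀ a ∈ S, dist x a < δ / 2 → ∀ y ∈ l,
        dist (F (y, (k : ℝ) / n)) (F (a, (k : ℝ) / n)) < min ε₁ ε₂ / 2 ∧
        dist (F (y, ((k + 1 : ℕ) : ℝ) / n)) (F (a, (k : ℝ) / n)) < min ε₁ ε₂ / 2 := by
      intro x hx a ha hxa y hy
      have h4 : dist y a < δ := by
        have := dist_triangle y x a
        have := hl.2 y hy x hx
        linarith
      have ha' : ((a, (k : ℝ) / n) : X × ℝ) ∈ A ×ˢ Icc (0 : ℝ) 1 := ⟨hS ha, hk0, hk1⟩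
      refine ⟨h3 _ ha' _ ?_, h3 _ ha' _ ?_⟩
      · rw [Prod.dist_eq]
        refine max_lt h4 ?_
        rw [dist_self]
        exact hδ
      · rw [Prod.dist_eq]
        refine max_lt h4 ?_
        rw [hk3, Real.dist_eq]
        have : (k : ℝ) / n + 1 / n - (k : ℝ) / n = 1 / n := by ring
        rw [this, abs_of_pos (by positivity)]
        exact hn1
    have mem : ∀ y ∈ l.map (fun x => F (x, (k : ℝ) / n)) ++
        l.map (fun x => F (x, ((k + 1 : ℕ) : ℝ) / n)), ∃ x ∈ l,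
        y = F (x, (k : ℝ) / n) ∨ y = F (x, ((k + 1 : ℕ) : ℝ) / n) := by
      intro y hy
      rcases List.mem_append.1 hy with h | h
      · obtain ⟨x, hx, rfl⟩ := List.mem_map.1 h
        exact ⟨x, hx, Or.inl rfl⟩
      · obtain ⟨x, hx, rfl⟩ := List.mem_map.1 h
        exact ⟨x, hx, Or.inr rfl⟩
    refine ⟨fun y hy => ?_, fun y hy z hz => ?_⟩
    · obtain ⟨x, hx, h⟩ := mem y hy
      obtain ⟨a, ha, hxa⟩ := Metric.mem_thickening_iff.1 (hl.1 x hx)
      have h4 := near x hx a ha hxa x hx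
      refine Metric.mem_thickening_iff.2 ⟨F (a, (k : ℝ) / n), hT ⟨ha, hk0, hk1⟩, ?_⟩
      rcases h with rfl | rfl
      · linarith [h4.1]
      · linarith [h4.2]
    · obtain ⟨x, hx, h⟩ := mem y hy
      obtain ⟨x', hx', h'⟩ := mem z hz
      obtain ⟨a, ha, hxa⟩ := Metric.mem_thickening_iff.1 (hl.1 x hx)
      have h4 := near x hx a ha hxa x hx
      have h5 := near x hx a ha hxa x' hx'
      have h6 : dist y (F (a, (k : ℝ) / n)) < min ε₁ ε₂ / 2 := by
        rcases h with rfl | rfl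
        · exact h4.1
        · exact h4.2
      have h7 : dist z (F (a, (k : ℝ) / n)) < min ε₁ ε₂ / 2 := by
        rcases h' with rfl | rfl
        · exact h5.1
        · exact h5.2
      have := dist_triangle_right y z (F (a, (k : ℝ) / n))
      linarith
  have step : ∀ k : ℕ, k ≤ n → Bd p A A'
      (VC.pull (fun x => F (x, 0)) c + VC.pull (fun x => F (x, (k : ℝ) / n)) c) := by
    intro k
    induction k with
    | zero =>
      intro _
      simp only [Nat.cast_zero, zero_div]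
      rw [add_self]
      exact Bd.zero
    | succ k ih =>
      intro hk
      refine bd_trans (ih (by omega)) ?_
      exact bd_of_contig (ε := min ε₁ ε₂) (δ := δ / 2) hc.deg
        (fun l hl => h1' l (Small.mono Subset.rfl (min_le_left _ _) hl))
        (fun l hl => h2' l (Small.mono Subset.rfl (min_le_right _ _) hl)) (by positivity)
        (key A Subset.rfl B hB k hk) (key A' hs B' hB' k hk)
  have := step n le_rfl
  rwa [div_self hn0.ne'] at this

/-! ### Extending functions from compact sets -/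

/-- A nearest point function of a compact set. -/
theorem exists_nearest {A : Set X} (hA : IsCompact A) (hne : A.Nonempty) :
    ∃ r : X → X, (∀ x, r x ∈ A) ∧ (∀ x, ∀ a ∈ A, dist x (r x) ≤ dist x a) := by
  have : ∀ x, ∃ y ∈ A, Metric.infDist x A = dist x y := fun x => hA.exists_infDist_eq_dist hne x
  choose r hr hr' using this
  exact ⟨r, hr, fun x a ha => by rw [← hr' x]; exact Metric.infDist_le_dist_of_mem ha⟩

/-- A continuous function on a compact set extends to a function that is uniformly continuous at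
the points of this set, with values in the image of the set. -/
theorem exists_extend {A : Set X} (hA : IsCompact A) (hne : A.Nonempty) {φ : X → Y}
    (hφ : ContinuousOn φ A) : ∃ f : X → Y, EqOn f φ A ∧ UAt f A ∧ ∀ x, f x ∈ φ '' A := by
  obtain ⟨r, hr, hr'⟩ := exists_nearest hA hne
  have hu : ∀ ε > 0, ∃ δ > 0, ∀ a ∈ A, ∀ b ∈ A, dist a b < δ → dist (φ a) (φ b) < ε := by
    intro ε hε
    have := hA.uniformContinuousOn_of_continuous hφ
    rw [Metric.uniformContinuousOn_iff] at this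
    exact this ε hε
  have hd : ∀ x, ∀ a ∈ A, dist (r x) a ≤ 2 * dist x a := by
    intro x a ha
    have h1 := dist_triangle_left (r x) a x
    have h2 := hr' x a ha
    linarith
  classical
  refine ⟨fun x => if x ∈ A then φ x else φ (r x), fun a ha => if_pos ha, ?_, fun x => ?_⟩
  · intro ε hε
    obtain ⟨δ, hδ, h⟩ := hu ε hε
    refine ⟨δ / 2, by positivity, fun a ha x hx => ?_⟩
    beta_reduce
    rw [if_pos ha]
    by_cases hxA : x ∈ A
    · rw [if_pos hxA]
      exact h x hxA a ha (by linarith)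
    · rw [if_neg hxA]
      exact h _ (hr x) a ha (by linarith [hd x a ha])
  · by_cases hxA : x ∈ A
    · simp only [if_pos hxA]
      exact ⟨x, hxA, rfl⟩
    · simp only [if_neg hxA]
      exact ⟨r x, hr x, rfl⟩

/-- Homotopy invariance, for homotopies that are defined on `A × [0,1]`. -/
theorem bd_of_homotopyOn {p : ℤ} {φ : X × ℝ → Y} {f g : X → Y} {A A' : Set X} {B B' : Set Y}
    {c : Cc Y} (hA : IsCompact A) (hφ : ContinuousOn φ (A ×ˢ Icc (0 : ℝ) 1))
    (hf : PMap f A A' B B') (hg : PMap g A A' B B') (hf0 : ∀ a ∈ A, φ (a, 0) = f a)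
    (hg1 : ∀ a ∈ A, φ (a, 1) = g a) (hB : MapsTo φ (A ×ˢ Icc (0 : ℝ) 1) B)
    (hB' : MapsTo φ (A' ×ˢ Icc (0 : ℝ) 1) B') (hc : Cyc p B B' c) :
    Bd p A A' (VC.pull f c + VC.pull g c) := by
  rcases A.eq_empty_or_nonempty with rfl | hne
  · have h1 : VC.pull f c + VC.pull g c ∈ Z (∅ : Set X) :=
      Z_empty (add_mem (pull_Dg f hc.deg) (pull_Dg g hc.deg))
    exact Bd.of_Z h1
  · obtain ⟨F, hF1, hF2, hF3⟩ := exists_extend (hA.prod isCompact_Icc)
      (hne.prod ⟨0, by simp⟩) hφ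
    have e0 : ∀ a ∈ A, F (a, 0) = f a := fun a ha => by
      rw [hF1 ⟨ha, by simp⟩, hf0 a ha]
    have e1 : ∀ a ∈ A, F (a, 1) = g a := fun a ha => by
      rw [hF1 ⟨ha, by simp⟩, hg1 a ha]
    have hs := hf.sub
    have hFB : MapsTo F (A ×ˢ Icc (0 : ℝ) 1) B := fun x hx => by rw [hF1 hx]; exact hB hx
    have hFB' : MapsTo F (A' ×ˢ Icc (0 : ℝ) 1) B' := fun x hx => by
      rw [hF1 ⟨hs hx.1, hx.2⟩]; exact hB' hx
    have hat : ∀ t ∈ Icc (0 : ℝ) 1, UAt (fun x => F (x, t)) A := by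
      intro t ht ε hε
      obtain ⟨δ, hδ, h⟩ := hF2 ε hε
      refine ⟨δ, hδ, fun a ha x hx => h (a, t) ⟨ha, ht⟩ (x, t) ?_⟩
      rw [Prod.dist_eq]
      refine max_lt hx ?_
      rw [dist_self]
      exact hδ
    have hP : ∀ t ∈ Icc (0 : ℝ) 1, PMap (fun x => F (x, t)) A A' B B' := fun t ht =>
      ⟨hat t ht, hs, fun a ha => hFB ⟨ha, ht⟩, fun a ha => hFB' ⟨ha, ht⟩⟩
    have h1 := bd_of_homotopy hF2 hs hFB hFB' hc
    have h2 := bd_of_eqOn hf (hP 0 (by simp)) (fun a ha => (e0 a ha).symm) hc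
    have h3 := bd_of_eqOn (hP 1 (by simp)) hg e1 hc
    exact bd_trans (bd_trans h2 h1) h3

/-! ### Transport -/

/-- If `g ∘ f` is the identity on `A` then `H^p(B, B') = 0` implies `H^p(A, A') = 0`. -/
theorem van_of_comp {p : ℤ} {f : X → Y} {g : Y → X} {A A' : Set X} {B B' : Set Y}
    (hf : PMap f A A' B B') (hg : PMap g B B' A A') (h : ∀ a ∈ A, g (f a) = a)
    (hV : Van p B B') : Van p A A' := by
  intro c hc
  have h1 : Bd p B B' (VC.pull g c) := hV _ (cyc_pull hg hc)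
  have h2 : Bd p A A' (VC.pull f (VC.pull g c)) := bd_pull hf h1
  rw [pull_pull] at h2
  have h3 := bd_of_eqOn (PMap.id hf.sub) (hf.comp hg) (fun a ha => (h a ha).symm) hc
  rw [pull_id] at h3
  exact bd_cancel h3 h2

/-- If `g ∘ f` is homotopic to the identity on `A` then `H^p(B, B') = 0` implies
`H^p(A, A') = 0`. -/
theorem van_of_homotopy {p : ℤ} {f : X → Y} {g : Y → X} {A A' : Set X} {B B' : Set Y}
    (hA : IsCompact A) (hf : PMap f A A' B B') (hg : PMap g B B' A A') {φ : X × ℝ → X}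
    (hφ : ContinuousOn φ (A ×ˢ Icc (0 : ℝ) 1)) (h0 : ∀ a ∈ A, φ (a, 0) = a)
    (h1 : ∀ a ∈ A, φ (a, 1) = g (f a)) (hB : MapsTo φ (A ×ˢ Icc (0 : ℝ) 1) A)
    (hB' : MapsTo φ (A' ×ˢ Icc (0 : ℝ) 1) A') (hV : Van p B B') : Van p A A' := by
  intro c hc
  have h2 : Bd p B B' (VC.pull g c) := hV _ (cyc_pull hg hc)
  have h3 : Bd p A A' (VC.pull f (VC.pull g c)) := bd_pull hf h2
  rw [pull_pull] at h3
  have h4 := bd_of_homotopyOn hA hφ (PMap.id hf.sub) (hf.comp hg) h0 h1 hB hB' hc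
  rw [pull_id] at h4
  exact bd_cancel h4 h3

/-! ### The constant cochains, points and contractible sets -/

/-- The constant cochain on the lists with `m` members. -/
def kc (X : Type*) (m : ℕ) : Cc X := fun l => if l.length = m then 1 else 0

theorem dd_kc (m : ℕ) (l : List X) :
    dd (kc X m) l = if l.length = m + 1 then ((m + 1 : ℕ) : ZMod 2) else 0 := by
  induction l generalizing m with
  | nil => simp
  | cons x l ih =>
    rw [dd_cons]
    cases m with
    | zero =>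
      have h1 : sh (kc X 0) x = 0 := by
        funext l'
        simp [kc]
      rw [h1, dd_zero]
      simp [kc]
    | succ m =>
      have h1 : sh (kc X (m + 1)) x = kc X m := by
        funext l'
        simp [kc]
      rw [h1, ih]
      by_cases h : l.length = m + 1
      · simp only [kc, h, List.length_cons, if_true]
        push_cast
        ring
      · simp [kc, h]

theorem kc_Dg (m : ℕ) : kc X (m + 1) ∈ Dg X m := by
  intro l hl
  have h : l.length = m + 1 := by
    by_contra h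
    exact hl (if_neg h)
  exact ⟨fun h' => by rw [h'] at h; simp at h, by rw [h]; push_cast; ring⟩

/-- The cochain `1` of degree `0`. -/
abbrev uno (X : Type*) : Cc X := kc X 1

theorem dd_uno : dd (uno X) = 0 := by
  funext l
  rw [dd_kc]
  by_cases h : l.length = 1 + 1
  · rw [if_pos h]; rfl
  · rw [if_neg h]; rfl

theorem uno_cyc (A : Set X) : Cyc 0 A ∅ (uno X) :=
  ⟨by simpa using kc_Dg (X := X) 0, Z_empty (by simpa using kc_Dg (X := X) 0),
    by rw [dd_uno]; exact zero_mem _⟩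

/-- The class of `1` is not zero on a non-empty set. -/
theorem uno_not_bd {A : Set X} (hA : A.Nonempty) : ¬ Bd 0 A ∅ (uno X) := by
  rintro ⟨b, h1, -, ε, hε, h3⟩
  obtain ⟨x, hx⟩ := hA
  have hb : b = 0 := Dg.neg h1 (by norm_num)
  rw [hb, dd_zero, add_zero] at h3
  have := h3 [x] ⟨fun y hy => by
    rw [List.mem_singleton.1 hy]
    exact Metric.self_subset_thickening hε _ hx, fun y hy z hz => by
    rw [List.mem_singleton.1 hy, List.mem_singleton.1 hz, dist_self]
    exact hε⟩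
  simp [kc] at this

/-- The pull back under a constant map. -/
theorem pull_const {m : ℕ} {c : Cc Y} (h : c ∈ Dg Y m) (w : Y) :
    VC.pull (fun _ : X => w) c = c (List.replicate (m + 1) w) • kc X (m + 1) := by
  funext l
  simp only [pull_apply, Pi.smul_apply, smul_eq_mul]
  rw [List.map_const']
  by_cases hl : l.length = m + 1
  · rw [hl]; simp [kc, hl]
  · simp only [kc, hl, if_false, mul_zero]
    by_contra h1
    have := (h _ h1).2
    rw [List.length_replicate] at this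
    apply hl
    omega

theorem dd_replicate (c : Cc X) (w : X) (m : ℕ) :
    dd c (List.replicate (m + 1) w) = ((m + 1 : ℕ) : ZMod 2) * c (List.replicate m w) := by
  induction m generalizing c with
  | zero => simp
  | succ m ih =>
    rw [List.replicate_succ, dd_cons, ih]
    rw [sh_apply, ← List.replicate_succ]
    push_cast
    ring

/-- A cocycle pulled back under a constant map. -/
theorem bd_pull_const {p : ℤ} {A : Set X} {B B' : Set Y} {c : Cc Y} {w : Y} (hw : w ∈ B)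
    (hc : Cyc p B B' c) (hp : p ≠ 0) : Bd p A ∅ (VC.pull (fun _ : X => w) c) := by
  rcases lt_or_ge p 0 with hneg | hpos
  · rw [Dg.neg hc.deg hneg, pull_zero]
    exact Bd.zero
  obtain ⟨m, rfl⟩ := Int.eq_ofNat_of_zero_le hpos
  obtain ⟨m, rfl⟩ : ∃ k, m = k + 1 := ⟨m - 1, by omega⟩
  rw [pull_const hc.deg]
  obtain ⟨ε, hε, h1⟩ := hc.cyc
  have h2 := h1 (List.replicate (m + 1 + 1 + 1) w) ⟨fun y hy => by
    rw [List.eq_of_mem_replicate hy]
    exact Metric.self_subset_thickening hε _ hw, fun y hy z hz => by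
    rw [List.eq_of_mem_replicate hy, List.eq_of_mem_replicate hz, dist_self]
    exact hε⟩
  rw [dd_replicate] at h2
  rcases Nat.even_or_odd m with he | ho
  · -- `m + 3` is odd
    have h3 : ((m + 1 + 1 + 1 : ℕ) : ZMod 2) = 1 := by
      have : Odd (m + 1 + 1 + 1) := by
        obtain ⟨k, hk⟩ := he
        exact ⟨k + 1, by omega⟩
      exact ZMod.natCast_eq_one_iff_odd.2 this
    rw [h3, one_mul] at h2
    rw [h2, zero_smul]
    exact Bd.zero
  · have h3 : dd (kc X (m + 1)) = kc X (m + 1 + 1) := by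
      funext l
      rw [dd_kc]
      have : ((m + 1 + 1 : ℕ) : ZMod 2) = 1 := by
        have : Odd (m + 1 + 1) := by
          obtain ⟨k, hk⟩ := ho
          exact ⟨k + 1, by omega⟩
        exact ZMod.natCast_eq_one_iff_odd.2 this
      rw [this]
      rfl
    rw [← h3]
    refine Bd.smul _ (Bd.of_dd ?_ ?_)
    · have := kc_Dg (X := X) m
      rwa [show ((m + 1 : ℕ) : ℤ) - 1 = (m : ℤ) by push_cast; ring]
    · exact Z_empty (kc_Dg (X := X) m)

/-- Contractible compact sets are acyclic. -/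
theorem van_of_contractible {p : ℤ} {A : Set X} (hA : IsCompact A) {φ : X × ℝ → X}
    (hφ : ContinuousOn φ (A ×ˢ Icc (0 : ℝ) 1)) (h0 : ∀ a ∈ A, φ (a, 0) = a) {w : X} (hw : w ∈ A)
    (h1 : ∀ a ∈ A, φ (a, 1) = w) (hB : MapsTo φ (A ×ˢ Icc (0 : ℝ) 1) A) (hp : p ≠ 0) :
    Van p A ∅ := by
  intro c hc
  have hcst : PMap (fun _ : X => w) A ∅ A ∅ :=
    ⟨fun ε hε => ⟨1, one_pos, fun _ _ _ _ => by rw [dist_self]; exact hε⟩, empty_subset _,
      fun _ _ => hw, fun x hx => hx.elim⟩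
  have h4 := bd_of_homotopyOn hA hφ (PMap.id (empty_subset A)) hcst h0 h1 hB
    (fun x hx => hx.1.elim) hc
  rw [pull_id] at h4
  exact bd_cancel h4 (bd_pull_const hw hc hp)

/-- The cocycles of degree `0` on a contractible compact set are constant. -/
theorem cyc_zero_of_contractible {A : Set X} (hA : IsCompact A) {φ : X × ℝ → X}
    (hφ : ContinuousOn φ (A ×ˢ Icc (0 : ℝ) 1)) (h0 : ∀ a ∈ A, φ (a, 0) = a) {w : X} (hw : w ∈ A)
    (h1 : ∀ a ∈ A, φ (a, 1) = w) (hB : MapsTo φ (A ×ˢ Icc (0 : ℝ) 1) A) {c : Cc X}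
    (hc : Cyc 0 A ∅ c) : Bd 0 A ∅ (c + c [w] • uno X) := by
  have hcst : PMap (fun _ : X => w) A ∅ A ∅ :=
    ⟨fun ε hε => ⟨1, one_pos, fun _ _ _ _ => by rw [dist_self]; exact hε⟩, empty_subset _,
      fun _ _ => hw, fun x hx => hx.elim⟩
  have h4 := bd_of_homotopyOn hA hφ (PMap.id (empty_subset A)) hcst h0 h1 hB
    (fun x hx => hx.1.elim) hc
  rw [pull_id] at h4
  have h5 := pull_const (X := X) (m := 0) (by simpa using hc.deg) w
  rw [h5] at h4
  simpa using h4

/-- A point is acyclic. -/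
theorem van_singleton {p : ℤ} (w : X) (hp : p ≠ 0) : Van p ({w} : Set X) ∅ :=
  van_of_contractible isCompact_singleton (φ := fun q => q.1) continuousOn_fst (fun _ _ => rfl)
    (mem_singleton w) (fun _ h => h) (fun _ h => h.1) hp

theorem cyc_zero_of_singleton {w : X} {c : Cc X} (hc : Cyc 0 ({w} : Set X) ∅ c) :
    Bd 0 ({w} : Set X) ∅ (c + c [w] • uno X) :=
  cyc_zero_of_contractible isCompact_singleton (φ := fun q => q.1) continuousOn_fst
    (fun _ _ => rfl) (mem_singleton w) (fun _ h => h) (fun _ h => h.1) hc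

end Pool.Agent.VC.MX
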