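import Mathlib

/-!
Vietoris (Alexander-Spanier) cohomology with coefficients mod 2: the core.

Total cochains on `X` are functions `List X → ZMod 2`; a cochain of degree `p : ℤ` is supported on
nonempty lists of length `p + 1`. The coboundary and the cup product are defined by recursion.
`Z A` is the set of the cochains that vanish on all small lists near `A`.
The cohomology `H^p(A, B)` is `{c ∈ Dg p ∩ Z B : dd c ∈ Z A} / (dd (Dg (p-1) ∩ Z B) + Z A)`; it is
used through the predicates `Cyc` and `Bd`.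
-/

namespace Pool.Agent.VC

open Set Filter Topology

universe u v w

/-- Total cochains. -/
abbrev Cc (X : Type u) := List X → ZMod 2

variable {X : Type u} {Y : Type v} {V : Type w}

/-- The cochain `l ↦ c (x :: l)`. -/
def sh (c : Cc X) (x : X) : Cc X := fun l => c (x :: l)

/-- The coboundary. -/
def dd : Cc X → Cc X
  | _, [] => 0
  | c, x :: l => c l + dd (sh c x) l
termination_by _ l => l.length

/-- The cup product. -/
def cup : Cc X → Cc X → Cc X
  | _, _, [] => 0
  | c, e, x :: l => c [x] * e (x :: l) + cup (sh c x) e l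
termination_by _ _ l => l.length

/-- Pull back of cochains. -/
def pull (f : X → Y) (c : Cc Y) : Cc X := fun l => c (l.map f)

/-- The prism operator of two maps. -/
def pr (f g : X → Y) : Cc Y → Cc X
  | _, [] => 0
  | c, x :: l => c (f x :: g x :: l.map g) + pr f g (sh c (f x)) l
termination_by _ l => l.length

@[simp] theorem sh_apply (c : Cc X) (x : X) (l : List X) : sh c x l = c (x :: l) := rfl
@[simp] theorem sh_add (c e : Cc X) (x : X) : sh (c + e) x = sh c x + sh e x := rfl
@[simp] theorem sh_zero (x : X) : sh (0 : Cc X) x = 0 := rfl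
@[simp] theorem sh_smul (a : ZMod 2) (c : Cc X) (x : X) : sh (a • c) x = a • sh c x := rfl

@[simp] theorem dd_nil (c : Cc X) : dd c [] = 0 := by rw [dd]
@[simp] theorem dd_cons (c : Cc X) (x : X) (l : List X) :
    dd c (x :: l) = c l + dd (sh c x) l := by rw [dd]
@[simp] theorem cup_nil (c e : Cc X) : cup c e [] = 0 := by rw [cup]
@[simp] theorem cup_cons (c e : Cc X) (x : X) (l : List X) :
    cup c e (x :: l) = c [x] * e (x :: l) + cup (sh c x) e l := by rw [cup]
@[simp] theorem pr_nil (f g : X → Y) (c : Cc Y) : pr f g c [] = 0 := by rw [pr]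
@[simp] theorem pr_cons (f g : X → Y) (c : Cc Y) (x : X) (l : List X) :
    pr f g c (x :: l) = c (f x :: g x :: l.map g) + pr f g (sh c (f x)) l := by rw [pr]
@[simp] theorem pull_apply (f : X → Y) (c : Cc Y) (l : List X) : pull f c l = c (l.map f) := rfl

theorem two_zero (a : ZMod 2) : a + a = 0 := CharTwo.add_self_eq_zero a

theorem add_self (c : Cc X) : c + c = 0 := by
  funext l
  exact two_zero _

/-! ### Linearity -/

theorem dd_add_apply (c e : Cc X) (l : List X) : dd (c + e) l = dd c l + dd e l := by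
  induction l generalizing c e with
  | nil => simp
  | cons x l ih =>
    simp only [dd_cons, sh_add, ih, Pi.add_apply]
    ring

theorem dd_smul_apply (a : ZMod 2) (c : Cc X) (l : List X) : dd (a • c) l = a * dd c l := by
  induction l generalizing c with
  | nil => simp
  | cons x l ih =>
    simp only [dd_cons, sh_smul, ih, Pi.smul_apply, smul_eq_mul]
    ring

theorem dd_add (c e : Cc X) : dd (c + e) = dd c + dd e := funext (dd_add_apply c e)
theorem dd_smul (a : ZMod 2) (c : Cc X) : dd (a • c) = a • dd c := funext (dd_smul_apply a c)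

/-- The coboundary as a linear map. -/
def ddL : Cc X →ₗ[ZMod 2] Cc X where
  toFun := dd
  map_add' := dd_add
  map_smul' := dd_smul

@[simp] theorem ddL_apply (c : Cc X) : ddL c = dd c := rfl

@[simp] theorem dd_zero : dd (0 : Cc X) = 0 := (ddL (X := X)).map_zero

theorem dd_sum {ι : Type*} (s : Finset ι) (c : ι → Cc X) :
    dd (∑ i ∈ s, c i) = ∑ i ∈ s, dd (c i) := map_sum (ddL (X := X)) c s

theorem sh_dd (c : Cc X) (x : X) : sh (dd c) x = c + dd (sh c x) := by
  funext l
  simp

theorem dd_dd_apply (c : Cc X) (l : List X) : dd (dd c) l = 0 := by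
  induction l generalizing c with
  | nil => simp
  | cons x l ih =>
    rw [dd_cons, sh_dd, dd_add_apply, ih, add_zero]
    exact two_zero _

@[simp] theorem dd_dd (c : Cc X) : dd (dd c) = 0 := funext (dd_dd_apply c)

theorem cup_add_left_apply (c c' e : Cc X) (l : List X) :
    cup (c + c') e l = cup c e l + cup c' e l := by
  induction l generalizing c c' with
  | nil => simp
  | cons x l ih =>
    simp only [cup_cons, sh_add, ih, Pi.add_apply]
    ring

theorem cup_add_right_apply (c e e' : Cc X) (l : List X) :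
    cup c (e + e') l = cup c e l + cup c e' l := by
  induction l generalizing c with
  | nil => simp
  | cons x l ih =>
    simp only [cup_cons, ih, Pi.add_apply]
    ring

theorem cup_smul_left_apply (a : ZMod 2) (c e : Cc X) (l : List X) :
    cup (a • c) e l = a * cup c e l := by
  induction l generalizing c with
  | nil => simp
  | cons x l ih =>
    simp only [cup_cons, sh_smul, ih, Pi.smul_apply, smul_eq_mul]
    ring

theorem cup_smul_right_apply (a : ZMod 2) (c e : Cc X) (l : List X) :
    cup c (a • e) l = a * cup c e l := by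
  induction l generalizing c with
  | nil => simp
  | cons x l ih =>
    simp only [cup_cons, ih, Pi.smul_apply, smul_eq_mul]
    ring

theorem cup_add_left (c c' e : Cc X) : cup (c + c') e = cup c e + cup c' e :=
  funext (cup_add_left_apply c c' e)
theorem cup_add_right (c e e' : Cc X) : cup c (e + e') = cup c e + cup c e' :=
  funext (cup_add_right_apply c e e')
theorem cup_smul_left (a : ZMod 2) (c e : Cc X) : cup (a • c) e = a • cup c e :=
  funext (cup_smul_left_apply a c e)
theorem cup_smul_right (a : ZMod 2) (c e : Cc X) : cup c (a • e) = a • cup c e :=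
  funext (cup_smul_right_apply a c e)

@[simp] theorem cup_zero_left (e : Cc X) : cup 0 e = 0 := by
  have := cup_smul_left 0 (0 : Cc X) e
  simpa using this
@[simp] theorem cup_zero_right (c : Cc X) : cup c 0 = 0 := by
  have := cup_smul_right 0 c (0 : Cc X)
  simpa using this

/-- Leibniz rule. -/
theorem dd_cup_apply (c e : Cc X) (l : List X) :
    dd (cup c e) l = cup (dd c) e l + cup c (dd e) l + c [] * e l + c l * e [] := by
  induction l generalizing c with
  | nil =>
    simp only [dd_nil, cup_nil, zero_add]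
    exact (two_zero _).symm
  | cons x l ih =>
    have h1 : sh (cup c e) x = c [x] • sh e x + cup (sh c x) e := by
      funext l'
      simp
    have h2 := two_zero (c [] * e (x :: l))
    rw [dd_cons, h1, dd_add_apply, dd_smul_apply, ih, cup_cons, cup_cons, sh_dd,
      cup_add_left_apply]
    simp only [dd_cons, dd_nil, sh_apply, add_zero]
    linear_combination (-1 : ZMod 2) * h2

/-- Associativity of the cup product. -/
theorem cup_assoc_apply (c e g : Cc X) (l : List X) :
    cup (cup c e) g l = cup c (cup e g) l := by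
  induction l generalizing c with
  | nil => simp
  | cons x l ih =>
    have h1 : sh (cup c e) x = c [x] • sh e x + cup (sh c x) e := by
      funext l'
      simp
    rw [cup_cons, h1, cup_add_left_apply, cup_smul_left_apply, ih, cup_cons, cup_cons]
    simp
    ring

theorem cup_assoc (c e g : Cc X) : cup (cup c e) g = cup c (cup e g) :=
  funext (cup_assoc_apply c e g)

/-! ### Naturality -/

theorem pull_add (f : X → Y) (c e : Cc Y) : pull f (c + e) = pull f c + pull f e := rfl
theorem pull_smul (f : X → Y) (a : ZMod 2) (c : Cc Y) : pull f (a • c) = a • pull f c := rfl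
@[simp] theorem pull_zero (f : X → Y) : pull f (0 : Cc Y) = 0 := rfl
theorem sh_pull (f : X → Y) (c : Cc Y) (x : X) : sh (pull f c) x = pull f (sh c (f x)) := rfl
theorem pull_pull (f : X → Y) (g : Y → V) (c : Cc V) :
    pull f (pull g c) = pull (g ∘ f) c := by
  funext l
  simp

@[simp] theorem pull_id (c : Cc X) : pull id c = c := by
  funext l
  simp

theorem dd_pull_apply (f : X → Y) (c : Cc Y) (l : List X) :
    dd (pull f c) l = dd c (l.map f) := by
  induction l generalizing c with
  | nil => simp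
  | cons x l ih => simp [sh_pull, ih]

theorem dd_pull (f : X → Y) (c : Cc Y) : dd (pull f c) = pull f (dd c) :=
  funext (dd_pull_apply f c)

theorem cup_pull_apply (f : X → Y) (c e : Cc Y) (l : List X) :
    cup (pull f c) (pull f e) l = cup c e (l.map f) := by
  induction l generalizing c with
  | nil => simp
  | cons x l ih => simp [sh_pull, ih]

theorem cup_pull (f : X → Y) (c e : Cc Y) : cup (pull f c) (pull f e) = pull f (cup c e) :=
  funext (cup_pull_apply f c e)

theorem pr_add_apply (f g : X → Y) (c e : Cc Y) (l : List X) :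
    pr f g (c + e) l = pr f g c l + pr f g e l := by
  induction l generalizing c e with
  | nil => simp
  | cons x l ih =>
    simp only [pr_cons, sh_add, ih, Pi.add_apply]
    ring

theorem pr_add (f g : X → Y) (c e : Cc Y) : pr f g (c + e) = pr f g c + pr f g e :=
  funext (pr_add_apply f g c e)

/-- The prism is a homotopy. -/
theorem prism_apply (f g : X → Y) (c : Cc Y) (l : List X) :
    dd (pr f g c) l + pr f g (dd c) l = c (l.map f) + c (l.map g) := by
  induction l generalizing c with
  | nil =>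
    simp only [dd_nil, pr_nil, List.map_nil, add_zero]
    exact (two_zero _).symm
  | cons x l ih =>
    have h1 : sh (pr f g c) x = pull g (sh (sh c (f x)) (g x)) + pr f g (sh c (f x)) := by
      funext l'
      simp
    have h3 := ih (sh c (f x))
    have h4 := two_zero (dd (sh (sh c (f x)) (g x)) (l.map g))
    have h5 := two_zero (pr f g c l)
    have h6 := two_zero (c (f x :: l.map g))
    rw [dd_cons, h1, dd_add_apply, dd_pull_apply, pr_cons, sh_dd, pr_add_apply]
    simp only [dd_cons, sh_apply, List.map_cons] at h3 ⊢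
    linear_combination h3 + h4 + h5 + h6

/-! ### Vanishing on families of lists -/

/-- A family of lists that is closed under passing to lists with fewer members. -/
def Cl (K : Set (List X)) : Prop := ∀ l ∈ K, ∀ l' : List X, l' ⊆ l → l' ∈ K

theorem Cl.shift {K : Set (List X)} (h : Cl K) (x : X) : Cl {l | x :: l ∈ K} := by
  intro l hl l' hl'
  exact h _ hl _ (List.cons_subset_cons x hl')

theorem dd_van {K : Set (List X)} (hK : Cl K) {c : Cc X} (hc : ∀ l ∈ K, c l = 0) :
    ∀ l ∈ K, dd c l = 0 := by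
  intro l
  induction l generalizing c K with
  | nil => intro _; simp
  | cons x l ih =>
    intro hl
    rw [dd_cons, hc l (hK _ hl _ (List.subset_cons_self x l)),
      ih (hK.shift x) (c := sh c x) (fun l' hl' => hc _ hl') hl, add_zero]

theorem cup_van_left {K : Set (List X)} (hK : Cl K) {c : Cc X} (e : Cc X)
    (hc : ∀ l ∈ K, c l = 0) : ∀ l ∈ K, cup c e l = 0 := by
  intro l
  induction l generalizing c K with
  | nil => intro _; simp
  | cons x l ih =>
    intro hl
    have h1 : [x] ∈ K := hK _ hl _ (by simp)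
    rw [cup_cons, hc _ h1, ih (hK.shift x) (c := sh c x) (fun l' hl' => hc _ hl') hl, zero_mul,
      add_zero]

theorem cup_van_right {K : Set (List X)} (hK : Cl K) (c : Cc X) {e : Cc X}
    (he : ∀ l ∈ K, e l = 0) : ∀ l ∈ K, cup c e l = 0 := by
  intro l
  induction l generalizing c with
  | nil => intro _; simp
  | cons x l ih =>
    intro hl
    rw [cup_cons, he _ hl, ih (sh c x) (hK _ hl _ (List.subset_cons_self x l)), mul_zero,
      add_zero]

theorem pr_van (f g : X → Y) {c : Cc Y} {l : List X}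
    (hc : ∀ l', l' ⊆ l.map f ++ l.map g → c l' = 0) : pr f g c l = 0 := by
  induction l generalizing c with
  | nil => simp
  | cons x l ih =>
    rw [pr_cons, hc, ih, add_zero]
    · intro l' hl'
      refine hc _ ?_
      intro y hy
      rcases List.mem_cons.1 hy with rfl | hy
      · simp
      · have := hl' hy
        simp only [List.mem_append, List.mem_map, List.map_cons, List.mem_cons] at this ⊢
        rcases this with h | h
        · exact Or.inl (Or.inr h)
        · exact Or.inr (Or.inr h)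
    · intro y hy
      simp only [List.mem_append, List.mem_map, List.map_cons, List.mem_cons] at hy ⊢
      rcases hy with h | h | h
      · exact Or.inl (Or.inl h)
      · exact Or.inr (Or.inl h)
      · exact Or.inr (Or.inr h)

/-! ### Degrees -/

/-- Cochains of degree `p`. -/
def Dg (X : Type u) (p : ℤ) : Submodule (ZMod 2) (Cc X) where
  carrier := {c | ∀ l, c l ≠ 0 → l ≠ [] ∧ (l.length : ℤ) = p + 1}
  zero_mem' := by
    intro l h
    exact absurd rfl h
  add_mem' := by
    intro a b ha hb l h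
    by_cases h1 : a l = 0
    · refine hb l ?_
      intro h2
      exact h (by simp [h1, h2])
    · exact ha l h1
  smul_mem' := by
    intro r a ha l h
    refine ha l ?_
    intro h1
    exact h (by simp [h1])

theorem mem_Dg {p : ℤ} {c : Cc X} :
    c ∈ Dg X p ↔ ∀ l, c l ≠ 0 → l ≠ [] ∧ (l.length : ℤ) = p + 1 := Iff.rfl

theorem Dg.nil {p : ℤ} {c : Cc X} (h : c ∈ Dg X p) : c [] = 0 := by
  by_contra h1
  exact (h [] h1).1 rfl

theorem Dg.neg {p : ℤ} {c : Cc X} (h : c ∈ Dg X p) (hp : p < 0) : c = 0 := by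
  funext l
  by_contra h1
  obtain ⟨h2, h3⟩ := h l h1
  have : 0 < l.length := List.length_pos_of_ne_nil h2
  omega

theorem dd_len {c : Cc X} {m : ℤ} (h : ∀ l, c l ≠ 0 → (l.length : ℤ) = m) :
    ∀ l, dd c l ≠ 0 → (l.length : ℤ) = m + 1 := by
  intro l
  induction l generalizing c m with
  | nil => intro h1; exact absurd (dd_nil c) h1
  | cons x l ih =>
    intro h1
    rw [dd_cons] at h1
    by_cases h2 : c l = 0
    · rw [h2, zero_add] at h1
      have h3 := ih (c := sh c x) (m := m - 1) (fun l' hl' => by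
        have := h _ hl'
        simp only [List.length_cons, Nat.cast_add, Nat.cast_one] at this
        omega) h1
      simp only [List.length_cons, Nat.cast_add, Nat.cast_one]
      omega
    · have := h l h2
      simp only [List.length_cons, Nat.cast_add, Nat.cast_one]
      omega

theorem dd_Dg {p : ℤ} {c : Cc X} (h : c ∈ Dg X p) : dd c ∈ Dg X (p + 1) := by
  intro l hl
  refine ⟨?_, ?_⟩
  · rintro rfl
    exact hl (dd_nil c)
  · exact dd_len (fun l hl => (h l hl).2) l hl

theorem cup_len {c e : Cc X} {m n : ℤ} (h : ∀ l, c l ≠ 0 → (l.length : ℤ) = m)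
    (h' : ∀ l, e l ≠ 0 → (l.length : ℤ) = n) :
    ∀ l, cup c e l ≠ 0 → (l.length : ℤ) = m + n - 1 := by
  intro l
  induction l generalizing c m with
  | nil => intro h1; exact absurd (cup_nil c e) h1
  | cons x l ih =>
    intro h1
    rw [cup_cons] at h1
    by_cases h2 : c [x] * e (x :: l) = 0
    · rw [h2, zero_add] at h1
      have h3 := ih (c := sh c x) (m := m - 1) (fun l' hl' => by
        have := h _ hl'
        simp only [List.length_cons, Nat.cast_add, Nat.cast_one] at this
        omega) h1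
      simp only [List.length_cons, Nat.cast_add, Nat.cast_one]
      omega
    · have h3 := h [x] (left_ne_zero_of_mul h2)
      have h4 := h' _ (right_ne_zero_of_mul h2)
      simp only [List.length_cons, List.length_nil, Nat.cast_add, Nat.cast_one, Nat.cast_zero]
        at h3 h4 ⊢
      omega

theorem cup_Dg {p q : ℤ} {c e : Cc X} (h : c ∈ Dg X p) (h' : e ∈ Dg X q) :
    cup c e ∈ Dg X (p + q) := by
  intro l hl
  refine ⟨?_, ?_⟩
  · rintro rfl
    exact hl (cup_nil c e)
  · have := cup_len (fun l hl => (h l hl).2) (fun l hl => (h' l hl).2) l hl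
    omega

theorem pull_Dg {p : ℤ} (f : X → Y) {c : Cc Y} (h : c ∈ Dg Y p) : pull f c ∈ Dg X p := by
  intro l hl
  obtain ⟨h1, h2⟩ := h _ hl
  refine ⟨?_, ?_⟩
  · rintro rfl
    exact h1 rfl
  · simpa using h2

theorem pr_len (f g : X → Y) {c : Cc Y} {m : ℤ} (h : ∀ l, c l ≠ 0 → (l.length : ℤ) = m) :
    ∀ l, pr f g c l ≠ 0 → (l.length : ℤ) = m - 1 := by
  intro l
  induction l generalizing c m with
  | nil => intro h1; exact absurd (pr_nil f g c) h1
  | cons x l ih =>
    intro h1
    rw [pr_cons] at h1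
    by_cases h2 : c (f x :: g x :: l.map g) = 0
    · rw [h2, zero_add] at h1
      have h3 := ih (c := sh c (f x)) (m := m - 1) (fun l' hl' => by
        have := h _ hl'
        simp only [List.length_cons, Nat.cast_add, Nat.cast_one] at this
        omega) h1
      simp only [List.length_cons, Nat.cast_add, Nat.cast_one]
      omega
    · have := h _ h2
      simp only [List.length_cons, Nat.cast_add, Nat.cast_one, List.length_map] at this ⊢
      omega

theorem pr_Dg {p : ℤ} (f g : X → Y) {c : Cc Y} (h : c ∈ Dg Y p) :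
    pr f g c ∈ Dg X (p - 1) := by
  intro l hl
  refine ⟨?_, ?_⟩
  · rintro rfl
    exact hl (pr_nil f g c)
  · have := pr_len f g (fun l hl => (h l hl).2) l hl
    omega

theorem dd_cup {p q : ℤ} {c e : Cc X} (h : c ∈ Dg X p) (h' : e ∈ Dg X q) :
    dd (cup c e) = cup (dd c) e + cup c (dd e) := by
  funext l
  have h1 : c [] = 0 := Dg.nil h
  have h2 : e [] = 0 := Dg.nil h'
  rw [dd_cup_apply, h1, h2]
  simp

/-- Multiplication by the indicator function of a set of lists. -/
noncomputable def ind (K : Set (List X)) (c : Cc X) : Cc X := K.indicator c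

theorem ind_of_mem {K : Set (List X)} {c : Cc X} {l : List X} (h : l ∈ K) : ind K c l = c l :=
  indicator_of_mem h c

theorem ind_of_notMem {K : Set (List X)} {c : Cc X} {l : List X} (h : l ∉ K) : ind K c l = 0 :=
  indicator_of_notMem h c

theorem ind_van {K : Set (List X)} {c : Cc X} {l : List X} (h : c l = 0) : ind K c l = 0 := by
  by_cases h1 : l ∈ K
  · rw [ind_of_mem h1, h]
  · exact ind_of_notMem h1

theorem ind_Dg {K : Set (List X)} {c : Cc X} {p : ℤ} (h : c ∈ Dg X p) : ind K c ∈ Dg X p := by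
  intro l hl
  exact h l (fun h1 => hl (ind_van h1))

theorem ind_add_compl (K : Set (List X)) (c : Cc X) : ind K c + ind Kᶜ c = c := by
  funext l
  by_cases h : l ∈ K
  · rw [Pi.add_apply, ind_of_mem h, ind_of_notMem (show l ∉ Kᶜ from not_not_intro h), add_zero]
  · rw [Pi.add_apply, ind_of_notMem h, ind_of_mem (show l ∈ Kᶜ from h), zero_add]

/-! ### Small lists and germs -/

section Metric

variable [PseudoMetricSpace X] [PseudoMetricSpace Y] [PseudoMetricSpace V]

/-- Lists of points near `A` with small distances. -/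
def Small (A : Set X) (ε : ℝ) : Set (List X) :=
  {l | (∀ x ∈ l, x ∈ Metric.thickening ε A) ∧ ∀ x ∈ l, ∀ y ∈ l, dist x y < ε}

theorem Small.cl (A : Set X) (ε : ℝ) : Cl (Small A ε) := fun _ hl _ hl' =>
  ⟨fun x hx => hl.1 x (hl' hx), fun x hx y hy => hl.2 x (hl' hx) y (hl' hy)⟩

theorem Small.mono {A B : Set X} {ε δ : ℝ} (hAB : A ⊆ B) (hε : ε ≤ δ) : Small A ε ⊆ Small B δ :=
  fun _ hl => ⟨fun x hx => Metric.thickening_mono hε _ (Metric.thickening_subset_of_subset ε hAB
    (hl.1 x hx)), fun x hx y hy => lt_of_lt_of_le (hl.2 x hx y hy) hε⟩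

/-- Cochains that vanish on the small lists near `A`. -/
def Z (A : Set X) : Submodule (ZMod 2) (Cc X) where
  carrier := {c | ∃ ε > 0, ∀ l ∈ Small A ε, c l = 0}
  zero_mem' := ⟨1, one_pos, fun _ _ => rfl⟩
  add_mem' := by
    rintro a b ⟨ε, hε, ha⟩ ⟨δ, hδ, hb⟩
    refine ⟨min ε δ, lt_min hε hδ, fun l hl => ?_⟩
    rw [Pi.add_apply, ha l (Small.mono Subset.rfl (min_le_left _ _) hl),
      hb l (Small.mono Subset.rfl (min_le_right _ _) hl), add_zero]
  smul_mem' := by
    rintro r a ⟨ε, hε, ha⟩
    refine ⟨ε, hε, fun l hl => ?_⟩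
    rw [Pi.smul_apply, ha l hl, smul_zero]

theorem mem_Z {A : Set X} {c : Cc X} : c ∈ Z A ↔ ∃ ε > 0, ∀ l ∈ Small A ε, c l = 0 := Iff.rfl

theorem Z_anti {A B : Set X} (h : A ⊆ B) : Z B ≤ Z A := by
  rintro c ⟨ε, hε, hc⟩
  exact ⟨ε, hε, fun l hl => hc l (Small.mono h le_rfl hl)⟩

theorem dd_Z {A : Set X} {c : Cc X} (h : c ∈ Z A) : dd c ∈ Z A := by
  obtain ⟨ε, hε, hc⟩ := h
  exact ⟨ε, hε, dd_van (Small.cl A ε) hc⟩

theorem cup_Z_left {A : Set X} {c : Cc X} (e : Cc X) (h : c ∈ Z A) : cup c e ∈ Z A := by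
  obtain ⟨ε, hε, hc⟩ := h
  exact ⟨ε, hε, cup_van_left (Small.cl A ε) e hc⟩

theorem cup_Z_right {A : Set X} (c : Cc X) {e : Cc X} (h : e ∈ Z A) : cup c e ∈ Z A := by
  obtain ⟨ε, hε, he⟩ := h
  exact ⟨ε, hε, cup_van_right (Small.cl A ε) c he⟩

theorem ind_Z {K : Set (List X)} {c : Cc X} {A : Set X} (h : c ∈ Z A) : ind K c ∈ Z A := by
  obtain ⟨ε, hε, hc⟩ := h
  exact ⟨ε, hε, fun l hl => ind_van (hc l hl)⟩

/-- Cochains of positive degree vanish on the empty list, so they are zero near the empty set. -/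
theorem Z_empty {p : ℤ} {c : Cc X} (h : c ∈ Dg X p) : c ∈ Z (∅ : Set X) := by
  refine ⟨1, one_pos, fun l hl => ?_⟩
  rcases l with _ | ⟨x, l⟩
  · exact Dg.nil h
  · have := hl.1 x (by simp)
    simp [Metric.thickening_empty] at this

/-- Gluing: `Z (A ∪ B)` is the intersection. -/
theorem Z_union {A B : Set X} {c : Cc X} (hA : c ∈ Z A) (hB : c ∈ Z B) : c ∈ Z (A ∪ B) := by
  obtain ⟨ε, hε, ha⟩ := hA
  obtain ⟨δ, hδ, hb⟩ := hB
  set m : ℝ := min ε δ with hm
  have hm0 : 0 < m := lt_min hε hδ
  refine ⟨m / 2, by positivity, fun l hl => ?_⟩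
  have key : ∀ (S : Set X), (∃ x ∈ l, x ∈ Metric.thickening (m / 2) S) → l ∈ Small S m := by
    rintro S ⟨x, hx, hxS⟩
    refine ⟨fun y hy => ?_, fun y hy z hz => lt_of_lt_of_le (hl.2 y hy z hz) (by linarith)⟩
    rw [Metric.mem_thickening_iff] at hxS ⊢
    obtain ⟨z, hz, hxz⟩ := hxS
    refine ⟨z, hz, ?_⟩
    have h1 := hl.2 y hy x hx
    have h2 := dist_triangle y x z
    linarith
  rcases l with _ | ⟨x, l⟩
  · exact ha [] ⟨by simp, by simp⟩
  · have hx := hl.1 x (by simp)
    rw [Metric.mem_thickening_iff] at hx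
    obtain ⟨z, hz, hxz⟩ := hx
    rcases hz with hz | hz
    · exact ha _ (Small.mono Subset.rfl (min_le_left _ _) (key A ⟨x, by simp,
        Metric.mem_thickening_iff.2 ⟨z, hz, hxz⟩⟩))
    · exact hb _ (Small.mono Subset.rfl (min_le_right _ _) (key B ⟨x, by simp,
        Metric.mem_thickening_iff.2 ⟨z, hz, hxz⟩⟩))

/-- Near the intersection of two compact sets. -/
theorem exists_thickening_inter {A B : Set X} (hA : IsCompact A) (hB : IsClosed B) {ε : ℝ}
    (hε : 0 < ε) : ∃ η > 0, Metric.thickening η A ∩ Metric.thickening η B ⊆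
      Metric.thickening ε (A ∩ B) := by
  by_contra hcon
  push Not at hcon
  have h1 : ∀ n : ℕ, ∃ x, x ∈ Metric.thickening (1 / ((n : ℝ) + 1)) A ∧
      x ∈ Metric.thickening (1 / ((n : ℝ) + 1)) B ∧ x ∉ Metric.thickening ε (A ∩ B) := by
    intro n
    have := hcon (1 / ((n : ℝ) + 1)) (by positivity)
    rw [not_subset] at this
    obtain ⟨x, hx, hx'⟩ := this
    exact ⟨x, hx.1, hx.2, hx'⟩
  choose x hxA hxB hx using h1
  have h2 : ∀ n : ℕ, ∃ a ∈ A, dist (x n) a < 1 / ((n : ℝ) + 1) := fun n =>
    Metric.mem_thickening_iff.1 (hxA n)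
  have h3 : ∀ n : ℕ, ∃ b ∈ B, dist (x n) b < 1 / ((n : ℝ) + 1) := fun n =>
    Metric.mem_thickening_iff.1 (hxB n)
  choose a haA ha using h2
  choose b hbB hb using h3
  obtain ⟨y, hyA, φ, hφ, hlim⟩ := hA.tendsto_subseq haA
  have hz : Tendsto (fun n : ℕ => 1 / ((n : ℝ) + 1)) atTop (𝓝 0) :=
    tendsto_one_div_add_atTop_nhds_zero_nat
  have hz' : Tendsto (fun n : ℕ => 1 / ((φ n : ℝ) + 1)) atTop (𝓝 0) :=
    hz.comp hφ.tendsto_atTop
  have hxlim : Tendsto (fun n => x (φ n)) atTop (𝓝 y) := by
    rw [tendsto_iff_dist_tendsto_zero]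
    have h5 : Tendsto (fun n => 1 / ((φ n : ℝ) + 1) + dist (a (φ n)) y) atTop (𝓝 0) := by
      have := hz'.add (tendsto_iff_dist_tendsto_zero.1 hlim)
      simpa using this
    refine squeeze_zero (fun _ => dist_nonneg) (fun n => ?_) h5
    have := dist_triangle (x (φ n)) (a (φ n)) y
    have := ha (φ n)
    linarith
  have hblim : Tendsto (fun n => b (φ n)) atTop (𝓝 y) := by
    rw [tendsto_iff_dist_tendsto_zero]
    have h5 : Tendsto (fun n => 1 / ((φ n : ℝ) + 1) + dist (x (φ n)) y) atTop (𝓝 0) := by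
      have := hz'.add (tendsto_iff_dist_tendsto_zero.1 hxlim)
      simpa using this
    refine squeeze_zero (fun _ => dist_nonneg) (fun n => ?_) h5
    have := dist_triangle (b (φ n)) (x (φ n)) y
    have h6 := hb (φ n)
    rw [dist_comm] at h6
    linarith
  have hyB : y ∈ B := hB.mem_of_tendsto hblim (Eventually.of_forall fun n => hbB _)
  have h7 : ∀ᶠ n in atTop, dist (x (φ n)) y < ε := by
    have := Metric.tendsto_nhds.1 hxlim ε hε
    exact this
  obtain ⟨n, hn⟩ := h7.exists
  exact hx (φ n) (Metric.mem_thickening_iff.2 ⟨y, ⟨hyA, hyB⟩, hn⟩)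

/-- Splitting: `Z (A ∩ B) = Z A + Z B`. The splitting keeps every kind of vanishing. -/
theorem Z_inter {A B : Set X} (hA : IsCompact A) (hB : IsClosed B) {c : Cc X}
    (h : c ∈ Z (A ∩ B)) : ∃ K : Set (List X), ind K c ∈ Z A ∧ ind Kᶜ c ∈ Z B := by
  obtain ⟨ε, hε, hc⟩ := h
  obtain ⟨η, hη, hsub⟩ := exists_thickening_inter hA hB hε
  refine ⟨{l | ¬ ∀ x ∈ l, x ∈ Metric.thickening η A}, ⟨η, hη, fun l hl => ?_⟩,
    ⟨min η ε, lt_min hη hε, fun l hl => ?_⟩⟩
  · exact ind_of_notMem (fun h => h hl.1)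
  · by_cases h1 : ∀ x ∈ l, x ∈ Metric.thickening η A
    · refine ind_van (hc l ⟨fun x hx => hsub ⟨h1 x hx, ?_⟩, fun x hx y hy =>
        lt_of_lt_of_le (hl.2 x hx y hy) (min_le_right _ _)⟩)
      exact Metric.thickening_mono (min_le_left _ _) _ (hl.1 x hx)
    · exact ind_of_notMem (fun h => h h1)

/-- A cochain in `Z A` is in `Z B` for every `B` in a neighbourhood of `A`. -/
theorem Z_nhds {A : Set X} {c : Cc X} (h : c ∈ Z A) :
    ∃ r > 0, ∀ B ⊆ Metric.thickening r A, c ∈ Z B := by
  obtain ⟨ε, hε, hc⟩ := h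
  refine ⟨ε / 2, by positivity, fun B hB => ⟨ε / 2, by positivity, fun l hl => hc l ⟨?_, ?_⟩⟩⟩
  · intro x hx
    obtain ⟨y, hy, hxy⟩ := Metric.mem_thickening_iff.1 (hl.1 x hx)
    obtain ⟨z, hz, hyz⟩ := Metric.mem_thickening_iff.1 (hB hy)
    refine Metric.mem_thickening_iff.2 ⟨z, hz, ?_⟩
    have := dist_triangle x y z
    linarith
  · intro x hx y hy
    have := hl.2 x hx y hy
    linarith

/-! ### Cocycles and coboundaries of pairs -/

/-- `c` is a cocycle of degree `p` of the pair `(A, B)`. -/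
structure Cyc (p : ℤ) (A B : Set X) (c : Cc X) : Prop where
  deg : c ∈ Dg X p
  rel : c ∈ Z B
  cyc : dd c ∈ Z A

/-- `c` is a coboundary of degree `p` of the pair `(A, B)`. -/
def Bd (p : ℤ) (A B : Set X) (c : Cc X) : Prop :=
  ∃ b ∈ Dg X (p - 1), b ∈ Z B ∧ c + dd b ∈ Z A

/-- `H^p(A, B) = 0`. -/
def Van (p : ℤ) (A B : Set X) : Prop := ∀ c, Cyc p A B c → Bd p A B c

theorem Cyc.add {p : ℤ} {A B : Set X} {c c' : Cc X} (h : Cyc p A B c) (h' : Cyc p A B c') :
    Cyc p A B (c + c') :=
  ⟨add_mem h.deg h'.deg, add_mem h.rel h'.rel, by rw [dd_add]; exact add_mem h.cyc h'.cyc⟩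

theorem Cyc.zero {p : ℤ} {A B : Set X} : Cyc p A B (0 : Cc X) :=
  ⟨zero_mem _, zero_mem _, by rw [dd_zero]; exact zero_mem _⟩

theorem Cyc.smul {p : ℤ} {A B : Set X} {c : Cc X} (a : ZMod 2) (h : Cyc p A B c) :
    Cyc p A B (a • c) :=
  ⟨Submodule.smul_mem _ a h.deg, Submodule.smul_mem _ a h.rel, by
    rw [dd_smul]; exact Submodule.smul_mem _ a h.cyc⟩

theorem Cyc.mono {p : ℤ} {A B A' B' : Set X} {c : Cc X} (h : Cyc p A B c) (hA : A' ⊆ A)
    (hB : B' ⊆ B) : Cyc p A' B' c := ⟨h.deg, Z_anti hB h.rel, Z_anti hA h.cyc⟩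

theorem Bd.mono {p : ℤ} {A B A' B' : Set X} {c : Cc X} (h : Bd p A B c) (hA : A' ⊆ A)
    (hB : B' ⊆ B) : Bd p A' B' c := by
  obtain ⟨b, h1, h2, h3⟩ := h
  exact ⟨b, h1, Z_anti hB h2, Z_anti hA h3⟩

theorem Bd.add {p : ℤ} {A B : Set X} {c c' : Cc X} (h : Bd p A B c) (h' : Bd p A B c') :
    Bd p A B (c + c') := by
  obtain ⟨b, h1, h2, h3⟩ := h
  obtain ⟨b', h1', h2', h3'⟩ := h'
  refine ⟨b + b', add_mem h1 h1', add_mem h2 h2', ?_⟩
  have h4 := add_mem h3 h3'
  rw [dd_add]
  have h5 : c + c' + (dd b + dd b') = c + dd b + (c' + dd b') := by abel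
  rw [h5]
  exact h4

theorem Bd.smul {p : ℤ} {A B : Set X} {c : Cc X} (a : ZMod 2) (h : Bd p A B c) :
    Bd p A B (a • c) := by
  obtain ⟨b, h1, h2, h3⟩ := h
  refine ⟨a • b, Submodule.smul_mem _ a h1, Submodule.smul_mem _ a h2, ?_⟩
  rw [dd_smul, ← smul_add]
  exact Submodule.smul_mem _ a h3

theorem Bd.zero {p : ℤ} {A B : Set X} : Bd p A B (0 : Cc X) :=
  ⟨0, zero_mem _, zero_mem _, by rw [dd_zero, add_zero]; exact zero_mem _⟩

/-- Elements of `Z A` are coboundaries. -/
theorem Bd.of_Z {p : ℤ} {A B : Set X} {c : Cc X} (h : c ∈ Z A) : Bd p A B c :=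
  ⟨0, zero_mem _, zero_mem _, by rw [dd_zero, add_zero]; exact h⟩

theorem Bd.of_dd {p : ℤ} {A B : Set X} {b : Cc X} (h : b ∈ Dg X (p - 1)) (hb : b ∈ Z B) :
    Bd p A B (dd b) := ⟨b, h, hb, by rw [add_self]; exact zero_mem _⟩

/-- A coboundary is a cocycle. -/
theorem Bd.cyc {p : ℤ} {A B : Set X} {c : Cc X} (hd : c ∈ Dg X p) (hB : c ∈ Z B)
    (h : Bd p A B c) : Cyc p A B c := by
  obtain ⟨b, h1, h2, h3⟩ := h
  refine ⟨hd, hB, ?_⟩
  have := dd_Z h3
  rwa [dd_add, dd_dd, add_zero] at this

end Metric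

end Pool.Agent.VC
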