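import Pool.Agent.VC.Cone

/-!
The Leray-Hirsch theorem over pairs and the Vietoris-Begle theorem.
-/

namespace Pool.Agent.VC

open Set Filter Topology

universe u v w

set_option maxHeartbeats 200000

variable {X : Type u} {Y : Type v} [MetricSpace X] [MetricSpace Y]

/-- Separation of disjoint compact sets by a cut-off: a cochain can be changed near `L` without
changing it near `A`. -/
theorem cutoff {A L : Set X} (hA : IsCompact A) (hL : IsCompact L) (hAL : Disjoint A L) :
    ∃ K : Set (List X), ∀ (p : ℤ) (b : Cc X), b ∈ Dg X p →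
      ind K b ∈ Dg X p ∧ ind K b ∈ Z L ∧ b + ind K b ∈ Z A := by
  obtain ⟨η, hη, h⟩ := exists_thickening_inter hA hL.isClosed one_pos
  rw [disjoint_iff_inter_eq_empty.1 hAL, Metric.thickening_empty, subset_empty_iff] at h
  refine ⟨{l | ∀ x ∈ l, x ∈ Metric.thickening η A}, fun p b hb => ⟨ind_Dg hb,
    ⟨η, hη, fun l hl => ?_⟩, ⟨η, hη, fun l hl => ?_⟩⟩⟩
  · rcases l with _ | ⟨x, l⟩
    · exact ind_van (Dg.nil hb)
    · refine ind_of_notMem (fun h1 => ?_)
      have h2 : x ∈ Metric.thickening η A ∩ Metric.thickening η L :=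
        ⟨h1 x (by simp), hl.1 x (by simp)⟩
      rw [h] at h2
      exact h2
  · rw [Pi.add_apply, ind_of_mem (show l ∈ {l | ∀ x ∈ l, x ∈ Metric.thickening η A} from hl.1)]
    exact two_zero _

theorem Bd.cutoff {A L : Set X} (hA : IsCompact A) (hL : IsCompact L) (hAL : Disjoint A L)
    {p : ℤ} {c : Cc X} (h : Bd p A ∅ c) : Bd p A L c := by
  obtain ⟨b, h1, -, h3⟩ := h
  obtain ⟨K, hK⟩ := VC.cutoff hA hL hAL
  obtain ⟨h4, h5, h6⟩ := hK _ _ h1
  refine ⟨ind K b, h4, h5, ?_⟩
  have h7 := add_mem h3 (dd_Z h6)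
  have h8 : c + dd b + dd (b + ind K b) = c + dd (ind K b) := by
    rw [dd_add]
    have := add_self (dd b)
    calc c + dd b + (dd b + dd (ind K b)) = (dd b + dd b) + (c + dd (ind K b)) := by abel
      _ = _ := by rw [this, zero_add]
  rwa [h8] at h7

/-- The cochains `e i` of degree `s i` are a basis of the cohomology of `E`. -/
structure FB {ι : Type*} [Fintype ι] (E : Set X) (s : ι → ℤ) (e : ι → Cc X) : Prop where
  inj : ∀ (p : ℤ) (a : ι → ZMod 2), (∀ i, a i ≠ 0 → s i = p) →
    Bd p E ∅ (∑ i, a i • e i) → a = 0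
  surj : ∀ (p : ℤ) (c : Cc X), Cyc p E ∅ c →
    ∃ a : ι → ZMod 2, (∀ i, a i ≠ 0 → s i = p) ∧ Bd p E ∅ (c + ∑ i, a i • e i)

section LerayHirsch

variable {ι : Type*} [Fintype ι] {E : Set X} {f : X → Y} {K L : Set Y}
  {s : ι → ℤ} {e : ι → Cc X}

/-- The theory of the base: families `a i` of cochains of degree `p - s i` of the pair. -/
abbrev T1 (K L : Set Y) (s : ι → ℤ) (hs : ∀ i, 0 ≤ s i) : Thy K (ι → Cc Y) :=
  (mkThy (SetMap.id K) L).pi s hs

/-- The theory of the total space. -/
abbrev T2 (hE : IsCompact E) (hf : CA f E) (K L : Set Y) : Thy K (Cc X) :=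
  mkThy (SetMap.preim hE hf K) (E ∩ f ⁻¹' L)

theorem comp_preim (hE : IsCompact E) (hf : CA f E) {A : Set Y} (hA : IsCompact A) :
    IsCompact (E ∩ f ⁻¹' A) :=
  (SetMap.preim hE hf A).comp A Subset.rfl hA

theorem pull_Z_preim (hE : IsCompact E) (hf : CA f E) {A : Set Y} (hA : IsCompact A) {c : Cc Y}
    (h : c ∈ Z A) : pull f c ∈ Z (E ∩ f ⁻¹' A) :=
  pull_Z (hf.mono inter_subset_left) (comp_preim hE hf hA) (fun _ hx => hx.2) h

/-- The morphism `a ↦ ∑ f^* a i ∪ e i`. -/
noncomputable def lhMor (hE : IsCompact E) (hf : CA f E) (hL : IsCompact L)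
    (hs : ∀ i, 0 ≤ s i) (he : ∀ i, e i ∈ Dg X (s i)) (hde : ∀ i, dd (e i) ∈ Z E) :
    Thy.Mor (T1 K L s hs) (T2 hE hf K L) 0 where
  φ := AddMonoidHom.mk' (fun a => ∑ i, cup (pull f (a i)) (e i)) (by
    intro a b
    rw [← Finset.sum_add_distrib]
    refine Finset.sum_congr rfl (fun i _ => ?_)
    rw [Pi.add_apply, pull_add, cup_add_left])
  gr p w hw := by
    show ∑ i, cup (pull f (w i)) (e i) ∈ (Dg X (p + 0) ⊓ Z (E ∩ f ⁻¹' L)).toAddSubgroup
    rw [add_zero]
    refine sum_mem (fun i _ => ⟨?_, ?_⟩)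
    · have h1 : w i ∈ Dg Y (p - s i) := (hw i trivial).1
      have := cup_Dg (pull_Dg f h1) (he i)
      rwa [sub_add_cancel] at this
    · have h1 : w i ∈ Z L := (hw i trivial).2
      exact cup_Z_left _ (pull_Z_preim hE hf hL h1)
  d p w hw A hA hAc := by
    show dd (∑ i, cup (pull f (w i)) (e i)) + ∑ i, cup (pull f (dd (w i))) (e i) ∈
      Z (E ∩ f ⁻¹' A)
    rw [dd_sum, ← Finset.sum_add_distrib]
    refine sum_mem (fun i _ => ?_)
    have h1 : w i ∈ Dg Y (p - s i) := (hw i trivial).1
    rw [dd_cup (pull_Dg f h1) (he i), dd_pull]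
    have h2 : cup (pull f (dd (w i))) (e i) + cup (pull f (w i)) (dd (e i)) +
        cup (pull f (dd (w i))) (e i) = cup (pull f (w i)) (dd (e i)) := by
      have := add_self (cup (pull f (dd (w i))) (e i))
      calc _ = (cup (pull f (dd (w i))) (e i) + cup (pull f (dd (w i))) (e i)) +
          cup (pull f (w i)) (dd (e i)) := by abel
        _ = _ := by rw [this, zero_add]
    rw [h2]
    exact cup_Z_right _ (Z_anti inter_subset_left (hde i))
  Z p w hw A hA hAc h := by
    show ∑ i, cup (pull f (w i)) (e i) ∈ Z (E ∩ f ⁻¹' A)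
    exact sum_mem (fun i _ => cup_Z_left _ (pull_Z_preim hE hf hAc (h i trivial)))

variable (hE : IsCompact E) (hf : CA f E) (hK : IsCompact K) (hL : IsCompact L) (hLK : L ⊆ K)
  (hs : ∀ i, 0 ≤ s i) (he : ∀ i, e i ∈ Dg X (s i)) (hde : ∀ i, dd (e i) ∈ Z E)

theorem lhMor_φ (a : ι → Cc Y) : (lhMor (K := K) hE hf hL hs he hde).φ a =
    ∑ i, cup (pull f (a i)) (e i) := rfl

/-- The comparison at a point of `L`. -/
theorem lh_point_L {y : Y} (hy : y ∈ L) (p : ℤ) :
    (lhMor (K := K) hE hf hL hs he hde).Surj p {y} ∧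
      (lhMor (K := K) hE hf hL hs he hde).Inj p {y} := by
  have hyL : ({y} : Set Y) ⊆ L := singleton_subset_iff.2 hy
  constructor
  · intro w hw _
    refine ⟨0, zero_mem _, ?_, 0, zero_mem _, ?_⟩
    · rw [map_zero]
      exact zero_mem _
    · rw [map_zero, map_zero, add_zero, add_zero]
      show w ∈ Z (E ∩ f ⁻¹' {y})
      exact Z_anti (inter_subset_inter_right _ (preimage_mono hyL)) hw.2
  · intro v hv _ _
    refine ⟨0, zero_mem _, ?_⟩
    rw [map_zero, add_zero]
    intro i _
    show v i ∈ Z {y}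
    exact Z_anti hyL (hv i trivial).2

include hLK in
/-- The comparison at a point outside `L`. -/
theorem lh_point {y : Y} (hy : y ∉ L) (hfb : FB (E ∩ f ⁻¹' {y}) s e) (p : ℤ) :
    (lhMor (K := K) hE hf hL hs he hde).Surj p {y} ∧
      (lhMor (K := K) hE hf hL hs he hde).Inj p {y} := by
  have _ := hLK
  set Ey : Set X := E ∩ f ⁻¹' {y} with hEy
  set EL : Set X := E ∩ f ⁻¹' L with hEL
  have hEyc : IsCompact Ey := comp_preim hE hf isCompact_singleton
  have hELc : IsCompact EL := comp_preim hE hf hL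
  have hdY : Disjoint ({y} : Set Y) L := disjoint_singleton_left.2 hy
  have hdX : Disjoint Ey EL := by
    rw [disjoint_left]
    intro x hx hx'
    have h1 : f x = y := hx.2
    have h2 : f x ∈ L := hx'.2
    rw [h1] at h2
    exact hy h2
  obtain ⟨K₀, hK₀⟩ := cutoff isCompact_singleton hL hdY
  obtain ⟨h1a, h1b, h1c⟩ := hK₀ 0 (one Y) one_Dg
  constructor
  · intro w hw hdw
    have hdw' : dd w ∈ Z Ey := hdw
    obtain ⟨a, ha, hbd⟩ := hfb.surj p w ⟨hw.1, Z_empty hw.1, hdw'⟩
    have hv : ∀ i, a i • ind K₀ (one Y) ∈ Dg Y (p - 0 - s i) := by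
      intro i
      by_cases h : a i = 0
      · rw [h, zero_smul]
        exact zero_mem _
      · rw [ha i h, sub_zero, sub_self]
        exact Submodule.smul_mem _ _ h1a
    refine ⟨fun i => a i • ind K₀ (one Y), ?_, ?_, ?_⟩
    · intro i _
      exact ⟨hv i, Submodule.smul_mem _ _ h1b⟩
    · intro i _
      show dd (a i • ind K₀ (one Y)) ∈ Z {y}
      rw [dd_smul]
      refine Submodule.smul_mem _ _ ?_
      have h2 := dd_Z h1c
      rwa [dd_add, dd_one, zero_add] at h2
    · rw [mkThy_IsBd]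
      refine Bd.cutoff hEyc hELc hdX ?_
      rw [lhMor_φ]
      have h3 : w + ∑ i, cup (pull f (a i • ind K₀ (one Y))) (e i) =
          (w + ∑ i, a i • e i) + ∑ i, a i • cup (pull f (one Y + ind K₀ (one Y))) (e i) := by
        rw [add_assoc, ← Finset.sum_add_distrib]
        congr 1
        refine Finset.sum_congr rfl (fun i _ => ?_)
        rw [pull_smul, cup_smul_left, pull_add, cup_add_left, pull_one, one_cup (he i), smul_add,
          ← add_assoc, add_self, zero_add]
      rw [h3]
      refine hbd.add (Bd.of_Z (sum_mem (fun i _ => Submodule.smul_mem _ _ ?_)))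
      exact cup_Z_left _ (pull_Z_preim hE hf isCompact_singleton h1c)
  · intro v hv hdv hbd
    rw [mkThy_IsBd, lhMor_φ] at hbd
    rw [Thy.pi_IsBd]
    have hvd : ∀ i, v i ∈ Dg Y (p - s i) := fun i => by
      have h := (hv i trivial).1
      rwa [show p - 0 - s i = p - s i by ring] at h
    have hcyc : ∀ i, Cyc (p - s i) ({y} : Set Y) ∅ (v i) := fun i =>
      ⟨hvd i, Z_empty (hvd i), hdv i trivial⟩
    -- representation of `v i` at the point
    have hrep : ∀ i, ∃ a : ZMod 2, ∃ b ∈ Dg Y (p - s i - 1), (a ≠ 0 → s i = p) ∧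
        v i + a • one Y + dd b ∈ Z ({y} : Set Y) := by
      intro i
      by_cases h : p - s i = 0
      · have h2 := hcyc i
        rw [h] at h2
        refine ⟨(v i) [y], 0, zero_mem _, fun _ => by linarith, ?_⟩
        rw [dd_zero, add_zero]
        exact point_zero y h2
      · obtain ⟨b, hb, -, h3⟩ := point_pos h y (v i) (hcyc i)
        refine ⟨0, b, hb, fun h => absurd rfl h, ?_⟩
        rwa [zero_smul, add_zero]
    choose a b hb ha hab using hrep
    have ha0 : a = 0 := by
      refine hfb.inj p a ha ?_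
      have hbd' : Bd p Ey ∅ (∑ i, cup (pull f (v i)) (e i)) := hbd.mono Subset.rfl (empty_subset _)
      have h4 : ∑ i, a i • e i = (∑ i, cup (pull f (v i)) (e i)) +
          (∑ i, cup (pull f (v i + a i • one Y + dd (b i))) (e i)) +
          ∑ i, cup (pull f (dd (b i))) (e i) := by
        rw [← Finset.sum_add_distrib, ← Finset.sum_add_distrib]
        refine Finset.sum_congr rfl (fun i _ => ?_)
        rw [pull_add, pull_add, cup_add_left, cup_add_left, pull_smul, cup_smul_left, pull_one,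
          one_cup (he i)]
        have h5 := add_self (cup (pull f (v i)) (e i))
        have h6 := add_self (cup (pull f (dd (b i))) (e i))
        calc a i • e i = (cup (pull f (v i)) (e i) + cup (pull f (v i)) (e i)) +
            (cup (pull f (dd (b i))) (e i) + cup (pull f (dd (b i))) (e i)) + a i • e i := by
              rw [h5, h6, add_zero, zero_add]
          _ = _ := by abel
      rw [h4]
      refine (hbd'.add (Bd.of_Z (sum_mem (fun i _ => ?_)))).add ?_
      · exact cup_Z_left _ (pull_Z_preim hE hf isCompact_singleton (hab i))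
      · -- `cup (pull f (dd b)) e` is cohomologous to `dd (cup (pull f b) e)`
        have h7 : ∀ i, Bd p Ey ∅ (cup (pull f (dd (b i))) (e i)) := by
          intro i
          have h8 : cup (pull f (b i)) (e i) ∈ Dg X (p - 1) := by
            have := cup_Dg (pull_Dg f (hb i)) (he i)
            rwa [show p - s i - 1 + s i = p - 1 by ring] at this
          refine ⟨cup (pull f (b i)) (e i), h8, Z_empty h8, ?_⟩
          rw [dd_cup (pull_Dg f (hb i)) (he i), dd_pull, ← add_assoc, add_self, zero_add]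
          exact cup_Z_right _ (Z_anti inter_subset_left (hde i))
        have h9 : ∀ t : Finset ι, Bd p Ey ∅ (∑ i ∈ t, cup (pull f (dd (b i))) (e i)) := by
          classical
          intro t
          induction t using Finset.induction_on with
          | empty => rw [Finset.sum_empty]; exact Bd.zero
          | insert i t hi ih => rw [Finset.sum_insert hi]; exact (h7 i).add ih
        exact h9 Finset.univ
    intro i
    rw [mkThy_IsBd, show p - 0 - s i = p - s i by ring]
    refine Bd.cutoff isCompact_singleton hL hdY ?_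
    have h5 := hab i
    rw [ha0, Pi.zero_apply, zero_smul, add_zero] at h5
    exact ⟨b i, hb i, Z_empty (hb i), h5⟩

include hE hf hK hL hLK hs he hde in
/-- The Leray-Hirsch theorem over a pair `(K, L)`: if the classes `e i` restrict to a basis of the
cohomology of the fibres over `K \ L`, then `a ↦ ∑ f^* a i ∪ e i` is an isomorphism
`⊕ H^{p - s i}(K, L) → H^p(f⁻¹ K, f⁻¹ L)`. -/
theorem leray_hirsch (hfb : ∀ y ∈ K \ L, FB (E ∩ f ⁻¹' {y}) s e) (p : ℤ) :
    (∀ c, Cyc p (E ∩ f ⁻¹' K) (E ∩ f ⁻¹' L) c → ∃ a : ι → Cc Y,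
      (∀ i, Cyc (p - s i) K L (a i)) ∧
      Bd p (E ∩ f ⁻¹' K) (E ∩ f ⁻¹' L) (c + ∑ i, cup (pull f (a i)) (e i))) ∧
    (∀ a : ι → Cc Y, (∀ i, Cyc (p - s i) K L (a i)) →
      Bd p (E ∩ f ⁻¹' K) (E ∩ f ⁻¹' L) (∑ i, cup (pull f (a i)) (e i)) →
      ∀ i, Bd (p - s i) K L (a i)) := by
  have h := Thy.compare (lhMor (K := K) hE hf hL hs he hde) (fun y hy q => by
    by_cases hyL : y ∈ L
    · exact lh_point_L hE hf hL hs he hde hyL q
    · exact lh_point hE hf hL hLK hs he hde hyL (hfb y ⟨hy, hyL⟩) q) K Subset.rfl hK p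
  obtain ⟨h1, h2⟩ := h
  refine ⟨fun c hc => ?_, fun a ha hbd => ?_⟩
  · obtain ⟨a, ha, hda, hb⟩ := h1 c ⟨hc.deg, hc.rel⟩ hc.cyc
    rw [mkThy_IsBd, lhMor_φ] at hb
    refine ⟨a, fun i => ⟨?_, (ha i trivial).2, hda i trivial⟩, hb⟩
    have := (ha i trivial).1
    rwa [show p - 0 - s i = p - s i by ring] at this
  · have h3 := h2 a (fun i _ => ⟨by
      show a i ∈ Dg Y (p - 0 - s i)
      rw [show p - 0 - s i = p - s i by ring]
      exact (ha i).deg, (ha i).rel⟩) (fun i _ => (ha i).cyc) (by
      rw [mkThy_IsBd, lhMor_φ]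
      exact hbd)
    intro i
    have h4 := (Thy.pi_IsBd _ _ _).1 h3 i
    rw [mkThy_IsBd, show p - 0 - s i = p - s i by ring] at h4
    exact h4

include hE hf hK hL hLK hs he hde in
/-- Vanishing of the total space from vanishing of the base. -/
theorem lh_van (hfb : ∀ y ∈ K \ L, FB (E ∩ f ⁻¹' {y}) s e) {p : ℤ}
    (h : ∀ i, Van (p - s i) K L) : Van p (E ∩ f ⁻¹' K) (E ∩ f ⁻¹' L) := by
  intro c hc
  obtain ⟨a, ha, hb⟩ := (leray_hirsch hE hf hK hL hLK hs he hde hfb p).1 c hc
  have h1 : ∀ i, Bd p (E ∩ f ⁻¹' K) (E ∩ f ⁻¹' L) (cup (pull f (a i)) (e i)) := by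
    intro i
    obtain ⟨b, hb1, hb2, hb3⟩ := h i (a i) (ha i)
    have h8 : cup (pull f b) (e i) ∈ Dg X (p - 1) := by
      have := cup_Dg (pull_Dg f hb1) (he i)
      rwa [show p - s i - 1 + s i = p - 1 by ring] at this
    refine ⟨cup (pull f b) (e i), h8, cup_Z_left _ (pull_Z_preim hE hf hL hb2), ?_⟩
    rw [dd_cup (pull_Dg f hb1) (he i), dd_pull, ← add_assoc, ← cup_add_left, ← pull_add]
    exact add_mem (cup_Z_left _ (pull_Z_preim hE hf hK hb3))
      (cup_Z_right _ (Z_anti inter_subset_left (hde i)))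
  have h9 : ∀ t : Finset ι, Bd p (E ∩ f ⁻¹' K) (E ∩ f ⁻¹' L)
      (∑ i ∈ t, cup (pull f (a i)) (e i)) := by
    classical
    intro t
    induction t using Finset.induction_on with
    | empty => rw [Finset.sum_empty]; exact Bd.zero
    | insert i t hi ih => rw [Finset.sum_insert hi]; exact (h1 i).add ih
  have h10 := hb.add (h9 Finset.univ)
  rwa [add_assoc, add_self, add_zero] at h10

include hE hf hK hL hLK hs he hde in
/-- Non-vanishing of the total space from non-vanishing of the base. -/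
theorem lh_not_van (hfb : ∀ y ∈ K \ L, FB (E ∩ f ⁻¹' {y}) s e) {p : ℤ} (i : ι)
    (h : ¬ Van p K L) : ¬ Van (p + s i) (E ∩ f ⁻¹' K) (E ∩ f ⁻¹' L) := by
  classical
  intro hv
  apply h
  intro c hc
  set a : ι → Cc Y := Pi.single i c with ha
  have hcyc : ∀ j, Cyc (p + s i - s j) K L (a j) := by
    intro j
    by_cases hj : j = i
    · subst hj
      rw [ha, Pi.single_eq_same, add_sub_cancel_right]
      exact hc
    · rw [ha, Pi.single_eq_of_ne hj]
      exact Cyc.zero
  have hsum : ∑ j, cup (pull f (a j)) (e j) = cup (pull f c) (e i) := by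
    rw [Finset.sum_eq_single i]
    · rw [ha, Pi.single_eq_same]
    · intro j _ hj
      rw [ha, Pi.single_eq_of_ne hj, pull_zero, cup_zero_left]
    · intro h; exact absurd (Finset.mem_univ i) h
  have h1 : Cyc (p + s i) (E ∩ f ⁻¹' K) (E ∩ f ⁻¹' L) (cup (pull f c) (e i)) := by
    refine ⟨cup_Dg (pull_Dg f hc.deg) (he i), cup_Z_left _ (pull_Z_preim hE hf hL hc.rel), ?_⟩
    rw [dd_cup (pull_Dg f hc.deg) (he i), dd_pull]
    exact add_mem (cup_Z_left _ (pull_Z_preim hE hf hK hc.cyc))
      (cup_Z_right _ (Z_anti inter_subset_left (hde i)))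
  have h2 := (leray_hirsch hE hf hK hL hLK hs he hde hfb (p + s i)).2 a hcyc (by
    rw [hsum]
    exact hv _ h1) i
  rw [ha, Pi.single_eq_same, add_sub_cancel_right] at h2
  exact h2

end LerayHirsch

/-- `E` has the cohomology of a point. -/
structure Acy (E : Set X) : Prop where
  ne : E.Nonempty
  pos : ∀ p : ℤ, p ≠ 0 → Van p E ∅
  zero : ∀ c, Cyc 0 E ∅ c → ∃ a : ZMod 2, Bd 0 E ∅ (c + a • one X)

theorem Acy.fb {E : Set X} (h : Acy E) : FB E (fun _ : Unit => (0 : ℤ)) (fun _ => one X) where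
  inj p a ha hb := by
    funext i
    by_contra h1
    have h2 : (0 : ℤ) = p := ha i h1
    subst h2
    have h3 : a () = 1 := by
      have : ∀ x : ZMod 2, x ≠ 0 → x = 1 := by decide
      exact this _ h1
    rw [Fintype.sum_unique] at hb
    change Bd 0 E ∅ (a () • one X) at hb
    rw [h3, one_smul] at hb
    exact one_not_Bd h.ne hb
  surj p c hc := by
    by_cases hp : p = 0
    · subst hp
      obtain ⟨a, ha⟩ := h.zero c hc
      refine ⟨fun _ => a, fun _ _ => rfl, ?_⟩
      rw [Fintype.sum_unique]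
      exact ha
    · refine ⟨0, fun i hi => absurd rfl hi, ?_⟩
      have := h.pos p hp c hc
      simpa using this

/-- The Vietoris-Begle theorem for pairs. -/
theorem vietoris_begle {E : Set X} {f : X → Y} {K L : Set Y} (hE : IsCompact E) (hf : CA f E)
    (hK : IsCompact K) (hL : IsCompact L) (hLK : L ⊆ K)
    (hfib : ∀ y ∈ K \ L, Acy (E ∩ f ⁻¹' {y})) (p : ℤ) :
    Van p (E ∩ f ⁻¹' K) (E ∩ f ⁻¹' L) ↔ Van p K L := by
  constructor
  · intro h
    by_contra h1
    have := lh_not_van (s := fun _ : Unit => (0 : ℤ)) (e := fun _ => one X) hE hf hK hL hLK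
      (fun _ => le_rfl) (fun _ => one_Dg) (fun _ => by rw [dd_one]; exact zero_mem _)
      (fun y hy => (hfib y hy).fb) () h1
    rw [add_zero] at this
    exact this h
  · intro h
    exact lh_van (s := fun _ : Unit => (0 : ℤ)) (e := fun _ => one X) hE hf hK hL hLK
      (fun _ => le_rfl) (fun _ => one_Dg) (fun _ => by rw [dd_one]; exact zero_mem _)
      (fun y hy => (hfib y hy).fb) (fun _ => by rwa [sub_zero])

/-- A compact set that contracts to a point has the cohomology of a point. -/
theorem Acy.of_homotopy {E : Set X} (hE : IsCompact E) (hne : E.Nonempty) {H : ℝ → X → X}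
    (hH : ∀ t ∈ II, ∀ x ∈ E,
      ContinuousWithinAt (fun q : ℝ × X => H q.1 q.2) (II ×ˢ univ) (t, x))
    (hm : ∀ t ∈ II, MapsTo (H t) E E) (h0 : ∀ x ∈ E, H 0 x = x) {x₀ : X} (hx₀ : x₀ ∈ E)
    (h1 : ∀ x ∈ E, H 1 x = x₀) : Acy E := by
  -- every cocycle is cohomologous to its pull back by the constant map
  have key : ∀ (p : ℤ) (c : Cc X), Cyc p E ∅ c → Bd p E ∅ (c + pull (fun _ : X => x₀) c) := by
    intro p c hc
    have hCA : ∀ t ∈ II, CA (H t) E := by
      intro t ht x hx
      have h2 := hH t ht x hx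
      have h3 : ContinuousWithinAt (fun x : X => ((t, x) : ℝ × X)) univ x :=
        (by fun_prop : Continuous (fun x : X => ((t, x) : ℝ × X))).continuousWithinAt
      have h4 := ContinuousWithinAt.comp (g := fun q : ℝ × X => H q.1 q.2)
        (f := fun x : X => ((t, x) : ℝ × X)) (s := univ) (t := II ×ˢ univ) (x := x) h2 h3
        (fun y _ => ⟨ht, mem_univ _⟩)
      rw [continuousWithinAt_univ] at h4
      exact h4
    have hemp : CA (fun x : X => x) (E ∪ ∅) := CA.id _
    have h2 : Bd p E ∅ (pull (H 0) c + pull (H 1) c) :=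
      homotopy hc hE isCompact_empty (by
        intro t ht x hx
        rw [union_empty] at hx
        exact hH t ht x hx) hm (fun t _ x hx => absurd hx (notMem_empty x))
    have h3 : Bd p E ∅ (pull (fun x : X => x) c + pull (H 0) c) :=
      agree hc hemp (by rw [union_empty]; exact hCA 0 ⟨le_rfl, zero_le_one⟩) hE isCompact_empty
        (by
          intro x hx
          rw [union_empty] at hx
          exact (h0 x hx).symm) (fun x hx => hx) (fun x hx => absurd hx (notMem_empty x))
    have h4 : Bd p E ∅ (pull (H 1) c + pull (fun _ : X => x₀) c) :=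
      agree hc (by rw [union_empty]; exact hCA 1 ⟨zero_le_one, le_rfl⟩)
        (CA.of_continuous continuous_const _) hE isCompact_empty
        (by
          intro x hx
          rw [union_empty] at hx
          exact h1 x hx) (hm 1 ⟨zero_le_one, le_rfl⟩) (fun x hx => absurd hx (notMem_empty x))
    have h5 := (h3.add h2).add h4
    have h6 : pull (fun x : X => x) c + pull (H 0) c + (pull (H 0) c + pull (H 1) c) +
        (pull (H 1) c + pull (fun _ : X => x₀) c) = c + pull (fun _ : X => x₀) c := by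
      have h7 := add_self (pull (H 0) c)
      have h8 := add_self (pull (H 1) c)
      have h9 : pull (fun x : X => x) c = c := by
        funext l
        simp
      rw [h9]
      calc _ = (pull (H 0) c + pull (H 0) c) + (pull (H 1) c + pull (H 1) c) +
          (c + pull (fun _ : X => x₀) c) := by abel
        _ = _ := by rw [h7, h8, add_zero, zero_add]
    rwa [h6] at h5
  have hx₀E : ({x₀} : Set X) ⊆ E := singleton_subset_iff.2 hx₀
  refine ⟨hne, fun p hp c hc => ?_, fun c hc => ?_⟩
  · have h2 : Bd p ({x₀} : Set X) ∅ c := point_pos hp x₀ c (hc.mono hx₀E Subset.rfl)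
    have h3 : Bd p E ∅ (pull (fun _ : X => x₀) c) :=
      h2.pull (CA.of_continuous continuous_const _) hE isCompact_empty
        (fun x _ => rfl) (fun x hx => absurd hx (notMem_empty x))
    have h4 := (key p c hc).add h3
    rwa [add_assoc, add_self, add_zero] at h4
  · refine ⟨c [x₀], ?_⟩
    have h2 := point_zero x₀ (hc.mono hx₀E Subset.rfl)
    have h3 : pull (fun _ : X => x₀) (c + c [x₀] • one X) ∈ Z E :=
      pull_Z (B := {x₀}) (CA.of_continuous continuous_const E) hE (fun x _ => rfl) h2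
    rw [pull_add, pull_smul, pull_one] at h3
    have h4 : Bd 0 E ∅ (c + pull (fun _ : X => x₀) c +
        (pull (fun _ : X => x₀) c + c [x₀] • one X)) := (key 0 c hc).add (Bd.of_Z h3)
    have h5 : c + pull (fun _ : X => x₀) c + (pull (fun _ : X => x₀) c + c [x₀] • one X) =
        c + c [x₀] • one X := by
      have h6 := add_self (pull (fun _ : X => x₀) c)
      calc c + pull (fun _ : X => x₀) c + (pull (fun _ : X => x₀) c + c [x₀] • one X) =
          (pull (fun _ : X => x₀) c + pull (fun _ : X => x₀) c) + (c + c [x₀] • one X) := by abel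
        _ = _ := by rw [h6, zero_add]
    rwa [h5] at h4

end Pool.Agent.VC
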