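import Pool.Agent.VC.Thy

/-!
Maps: functoriality, contiguity, homotopy invariance, points.
-/

namespace Pool.Agent.VC

open Set Filter Topology

universe u v w

variable {X : Type u} {Y : Type v} {V : Type w} [MetricSpace X] [MetricSpace Y] [MetricSpace V]

/-- `f` is continuous at the points of `A` (not only within `A`). -/
def CA (f : X → Y) (A : Set X) : Prop := ∀ x ∈ A, ContinuousAt f x

theorem CA.mono {f : X → Y} {A B : Set X} (h : CA f B) (hAB : A ⊆ B) : CA f A :=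
  fun x hx => h x (hAB hx)

theorem CA.of_continuous {f : X → Y} (h : Continuous f) (A : Set X) : CA f A :=
  fun _ _ => h.continuousAt

theorem CA.id (A : Set X) : CA (fun x : X => x) A := CA.of_continuous continuous_id A

theorem CA.comp {f : X → Y} {g : Y → V} {A : Set X} {B : Set Y} (hg : CA g B) (hf : CA f A)
    (h : MapsTo f A B) : CA (fun x => g (f x)) A :=
  fun x hx => (hg _ (h hx)).comp (hf x hx)

/-- Uniform continuity near a compact set. -/
theorem CA.unif {f : X → Y} {A : Set X} (hf : CA f A) (hA : IsCompact A) {ε : ℝ} (hε : 0 < ε) :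
    ∃ δ > 0, ∀ x ∈ A, ∀ y, dist y x < δ → dist (f y) (f x) < ε := by
  have h1 : ∀ x ∈ A, ∃ r > 0, ∀ y, dist y x < 2 * r → dist (f y) (f x) < ε / 2 := by
    intro x hx
    obtain ⟨r, hr, h⟩ := Metric.continuousAt_iff.1 (hf x hx) (ε / 2) (by positivity)
    exact ⟨r / 2, by positivity, fun y hy => h (by linarith)⟩
  choose! r hr h2 using h1
  obtain ⟨t, htA, hcov⟩ := hA.elim_nhds_subcover (fun x => Metric.ball x (r x))
    (fun x hx => Metric.ball_mem_nhds x (hr x hx))
  obtain ⟨δ, hδ, hδr⟩ : ∃ δ > 0, ∀ x ∈ t, δ ≤ r x := by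
    rcases t.eq_empty_or_nonempty with h | h
    · exact ⟨1, one_pos, by simp [h]⟩
    · refine ⟨t.inf' h r, ?_, fun x hx => Finset.inf'_le r hx⟩
      rw [gt_iff_lt, Finset.lt_inf'_iff]
      exact fun x hx => hr x (htA x hx)
  refine ⟨δ, hδ, fun x hx y hy => ?_⟩
  have h3 := hcov hx
  rw [mem_iUnion₂] at h3
  obtain ⟨a, hat, hxa⟩ := h3
  rw [Metric.mem_ball] at hxa
  have h4 := h2 a (htA a hat) x (by linarith [hr a (htA a hat)])
  have h5 := h2 a (htA a hat) y (by
    have := dist_triangle y x a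
    have := hδr a hat
    linarith)
  have := dist_triangle_right (f y) (f x) (f a)
  linarith

/-- Two maps that agree at the points of `A` are close near `A`. -/
theorem CA.close {f g : X → Y} {A : Set X} {B : Set Y} (hf : CA f A) (hg : CA g A)
    (hA : IsCompact A) (hfg : EqOn f g A) (hm : MapsTo f A B) {ε : ℝ} (hε : 0 < ε) :
    ∃ δ > 0, ∀ l ∈ Small A δ, l.map f ++ l.map g ∈ Small B ε := by
  obtain ⟨δ₁, hδ₁, h1⟩ := hf.unif hA (show 0 < ε / 2 by positivity)
  obtain ⟨δ₂, hδ₂, h2⟩ := hg.unif hA (show 0 < ε / 2 by positivity)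
  set δ := min δ₁ δ₂ with hδdef
  have hδ : 0 < δ := lt_min hδ₁ hδ₂
  refine ⟨δ / 2, by positivity, fun l hl => ?_⟩
  -- every member is close to the value at a common point of A
  have key : ∀ x ∈ l, ∃ a ∈ A, ∀ y ∈ l, dist (f y) (f a) < ε / 2 ∧ dist (g y) (f a) < ε / 2 := by
    intro x hx
    obtain ⟨a, ha, hxa⟩ := Metric.mem_thickening_iff.1 (hl.1 x hx)
    refine ⟨a, ha, fun y hy => ?_⟩
    have h3 : dist y a < δ := by
      have := dist_triangle y x a
      have := hl.2 y hy x hx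
      linarith
    refine ⟨h1 a ha y (lt_of_lt_of_le h3 (min_le_left _ _)), ?_⟩
    rw [hfg ha]
    exact h2 a ha y (lt_of_lt_of_le h3 (min_le_right _ _))
  refine ⟨?_, ?_⟩
  · intro z hz
    simp only [List.mem_append, List.mem_map] at hz
    rcases hz with ⟨y, hy, rfl⟩ | ⟨y, hy, rfl⟩
    · obtain ⟨a, ha, h⟩ := key y hy
      exact Metric.mem_thickening_iff.2 ⟨f a, hm ha, lt_trans (h y hy).1 (by linarith)⟩
    · obtain ⟨a, ha, h⟩ := key y hy
      exact Metric.mem_thickening_iff.2 ⟨f a, hm ha, lt_trans (h y hy).2 (by linarith)⟩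
  · intro z hz z' hz'
    have hz1 : ∃ y ∈ l, z = f y ∨ z = g y := by
      simp only [List.mem_append, List.mem_map] at hz
      rcases hz with ⟨y, hy, rfl⟩ | ⟨y, hy, rfl⟩
      · exact ⟨y, hy, Or.inl rfl⟩
      · exact ⟨y, hy, Or.inr rfl⟩
    have hz1' : ∃ y ∈ l, z' = f y ∨ z' = g y := by
      simp only [List.mem_append, List.mem_map] at hz'
      rcases hz' with ⟨y, hy, rfl⟩ | ⟨y, hy, rfl⟩
      · exact ⟨y, hy, Or.inl rfl⟩
      · exact ⟨y, hy, Or.inr rfl⟩
    obtain ⟨y, hy, hzy⟩ := hz1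
    obtain ⟨y', hy', hzy'⟩ := hz1'
    obtain ⟨a, ha, h⟩ := key y hy
    have h4 : dist z (f a) < ε / 2 := by
      rcases hzy with rfl | rfl
      · exact (h y hy).1
      · exact (h y hy).2
    have h5 : dist z' (f a) < ε / 2 := by
      rcases hzy' with rfl | rfl
      · exact (h y' hy').1
      · exact (h y' hy').2
    have := dist_triangle_right z z' (f a)
    linarith

theorem CA.small {f : X → Y} {A : Set X} {B : Set Y} (hf : CA f A)
    (hA : IsCompact A) (hm : MapsTo f A B) {ε : ℝ} (hε : 0 < ε) :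
    ∃ δ > 0, ∀ l ∈ Small A δ, l.map f ∈ Small B ε := by
  obtain ⟨δ, hδ, h⟩ := hf.close hf hA (fun _ _ => rfl) hm hε
  exact ⟨δ, hδ, fun l hl => Small.cl B ε _ (h l hl) _ (by simp)⟩

theorem pull_Z {f : X → Y} {A : Set X} {B : Set Y} (hf : CA f A)
    (hA : IsCompact A) (hm : MapsTo f A B) {c : Cc Y} (h : c ∈ Z B) : pull f c ∈ Z A := by
  obtain ⟨ε, hε, hc⟩ := h
  obtain ⟨δ, hδ, h1⟩ := hf.small hA hm hε
  exact ⟨δ, hδ, fun l hl => hc _ (h1 l hl)⟩

theorem Cyc.pull {p : ℤ} {A B : Set X} {A' B' : Set Y} {f : X → Y} {c : Cc Y}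
    (h : Cyc p A' B' c) (hf : CA f (A ∪ B)) (hA : IsCompact A) (hB : IsCompact B)
    (hmA : MapsTo f A A') (hmB : MapsTo f B B') : Cyc p A B (VC.pull f c) :=
  ⟨pull_Dg f h.deg, pull_Z (hf.mono subset_union_right) hB hmB h.rel, by
    rw [dd_pull]
    exact pull_Z (hf.mono subset_union_left) hA hmA h.cyc⟩

theorem Bd.pull {p : ℤ} {A B : Set X} {A' B' : Set Y} {f : X → Y} {c : Cc Y}
    (h : Bd p A' B' c) (hf : CA f (A ∪ B)) (hA : IsCompact A) (hB : IsCompact B)
    (hmA : MapsTo f A A') (hmB : MapsTo f B B') : Bd p A B (VC.pull f c) := by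
  obtain ⟨b, h1, h2, h3⟩ := h
  refine ⟨VC.pull f b, pull_Dg f h1, pull_Z (hf.mono subset_union_right) hB hmB h2, ?_⟩
  rw [dd_pull, ← pull_add]
  exact pull_Z (hf.mono subset_union_left) hA hmA h3

/-- Contiguity with explicit constants. -/
theorem contig {p : ℤ} {A B : Set X} {A' B' : Set Y} {f g : X → Y} {c : Cc Y} {ε δ : ℝ}
    (hδ : 0 < δ) (hc : c ∈ Dg Y p) (hcA : ∀ l ∈ Small A' ε, dd c l = 0)
    (hcB : ∀ l ∈ Small B' ε, c l = 0)
    (hA : ∀ l ∈ Small A δ, l.map f ++ l.map g ∈ Small A' ε)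
    (hB : ∀ l ∈ Small B δ, l.map f ++ l.map g ∈ Small B' ε) :
    Bd p A B (pull f c + pull g c) := by
  refine ⟨pr f g c, pr_Dg f g hc, ⟨δ, hδ, fun l hl => ?_⟩, ⟨δ, hδ, fun l hl => ?_⟩⟩
  · exact pr_van f g (fun l' hl' => hcB _ (Small.cl B' ε _ (hB l hl) _ hl'))
  · have h1 : pr f g (dd c) l = 0 :=
      pr_van f g (fun l' hl' => hcA _ (Small.cl A' ε _ (hA l hl) _ hl'))
    have h2 := prism_apply f g c l
    rw [h1, add_zero] at h2
    rw [Pi.add_apply, Pi.add_apply, h2, pull_apply, pull_apply]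
    exact two_zero _

/-- Maps that agree at the points of `A` and `B` induce the same map in cohomology. -/
theorem agree {p : ℤ} {A B : Set X} {A' B' : Set Y} {f g : X → Y} {c : Cc Y}
    (h : Cyc p A' B' c) (hf : CA f (A ∪ B)) (hg : CA g (A ∪ B)) (hA : IsCompact A)
    (hB : IsCompact B) (hfg : EqOn f g (A ∪ B)) (hmA : MapsTo f A A') (hmB : MapsTo f B B') :
    Bd p A B (pull f c + pull g c) := by
  obtain ⟨ε₁, hε₁, h1⟩ := h.cyc
  obtain ⟨ε₂, hε₂, h2⟩ := h.rel
  have hε : 0 < min ε₁ ε₂ := lt_min hε₁ hε₂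
  obtain ⟨δ₁, hδ₁, h3⟩ := (hf.mono subset_union_left).close (hg.mono subset_union_left) hA
    (hfg.mono subset_union_left) hmA hε
  obtain ⟨δ₂, hδ₂, h4⟩ := (hf.mono subset_union_right).close (hg.mono subset_union_right) hB
    (hfg.mono subset_union_right) hmB hε
  exact contig (ε := min ε₁ ε₂) (lt_min hδ₁ hδ₂) h.deg
    (fun l hl => h1 l (Small.mono Subset.rfl (min_le_left _ _) hl))
    (fun l hl => h2 l (Small.mono Subset.rfl (min_le_right _ _) hl))
    (fun l hl => h3 l (Small.mono Subset.rfl (min_le_left _ _) hl))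
    (fun l hl => h4 l (Small.mono Subset.rfl (min_le_right _ _) hl))

/-- The interval `[0,1]`. -/
abbrev II : Set ℝ := Icc (0 : ℝ) 1

/-- Uniform continuity of a homotopy near a compact set. -/
theorem homotopy_unif {H : ℝ → X → Y} {A : Set X} (hA : IsCompact A)
    (hH : ∀ t ∈ II, ∀ x ∈ A,
      ContinuousWithinAt (fun p : ℝ × X => H p.1 p.2) (II ×ˢ univ) (t, x)) {ε : ℝ} (hε : 0 < ε) :
    ∃ δ > 0, ∀ t ∈ II, ∀ x ∈ A, ∀ s ∈ II, ∀ y, |s - t| < δ → dist y x < δ →
      dist (H s y) (H t x) < ε := by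
  have hcomp : IsCompact (II ×ˢ A) := isCompact_Icc.prod hA
  have h1 : ∀ q ∈ II ×ˢ A, ∃ r > 0, ∀ z : ℝ × X, z.1 ∈ II → dist z q < 2 * r →
      dist (H z.1 z.2) (H q.1 q.2) < ε / 2 := by
    rintro ⟨t, x⟩ ⟨ht, hx⟩
    obtain ⟨r, hr, h⟩ := Metric.continuousWithinAt_iff.1 (hH t ht x hx) (ε / 2) (by positivity)
    exact ⟨r / 2, by positivity, fun z hz hd => h ⟨hz, mem_univ _⟩ (by linarith)⟩
  choose! r hr h2 using h1
  obtain ⟨t, htA, hcov⟩ := hcomp.elim_nhds_subcover (fun x => Metric.ball x (r x))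
    (fun x hx => Metric.ball_mem_nhds x (hr x hx))
  obtain ⟨δ, hδ, hδr⟩ : ∃ δ > 0, ∀ x ∈ t, δ ≤ r x := by
    rcases t.eq_empty_or_nonempty with h | h
    · exact ⟨1, one_pos, by simp [h]⟩
    · refine ⟨t.inf' h r, ?_, fun x hx => Finset.inf'_le r hx⟩
      rw [gt_iff_lt, Finset.lt_inf'_iff]
      exact fun x hx => hr x (htA x hx)
  refine ⟨δ, hδ, fun a ha x hx s hs y hsa hyx => ?_⟩
  have h3 := hcov (show (a, x) ∈ II ×ˢ A from ⟨ha, hx⟩)
  rw [mem_iUnion₂] at h3
  obtain ⟨q, hqt, hxq⟩ := h3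
  rw [Metric.mem_ball] at hxq
  have h4 := h2 q (htA q hqt) (a, x) ha (by linarith [hr q (htA q hqt)])
  have h6 : dist ((s, y) : ℝ × X) (a, x) < δ := by
    rw [Prod.dist_eq]
    exact max_lt (by rwa [Real.dist_eq]) hyx
  have h5 := h2 q (htA q hqt) (s, y) hs (by
    have := dist_triangle ((s, y) : ℝ × X) (a, x) q
    have := hδr q hqt
    linarith)
  have := dist_triangle_right (H s y) (H a x) (H q.1 q.2)
  simp only at h4 h5
  linarith

/-- Homotopy invariance for maps of pairs. -/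
theorem homotopy {p : ℤ} {A B : Set X} {A' B' : Set Y} {H : ℝ → X → Y} {c : Cc Y}
    (h : Cyc p A' B' c) (hA : IsCompact A) (hB : IsCompact B)
    (hH : ∀ t ∈ II, ∀ x ∈ A ∪ B,
      ContinuousWithinAt (fun p : ℝ × X => H p.1 p.2) (II ×ˢ univ) (t, x))
    (hmA : ∀ t ∈ II, MapsTo (H t) A A') (hmB : ∀ t ∈ II, MapsTo (H t) B B') :
    Bd p A B (pull (H 0) c + pull (H 1) c) := by
  obtain ⟨ε₁, hε₁, h1⟩ := h.cyc
  obtain ⟨ε₂, hε₂, h2⟩ := h.rel
  set ε := min ε₁ ε₂ with hεdef
  have hε : 0 < ε := lt_min hε₁ hε₂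
  obtain ⟨δ, hδ, hδH⟩ := homotopy_unif (hA.union hB) hH (show 0 < ε / 2 by positivity)
  obtain ⟨N, hN⟩ := exists_nat_gt (1 / δ)
  have hN0 : (0 : ℝ) < N := lt_trans (by positivity) hN
  have hstep : 1 / (N : ℝ) < δ := by
    rw [div_lt_iff₀ hN0]
    rw [div_lt_iff₀ hδ] at hN
    linarith
  -- one step
  have key : ∀ (S : Set X) (S' : Set Y), S ⊆ A ∪ B → (∀ t ∈ II, MapsTo (H t) S S') →
      ∀ s ∈ II, ∀ t ∈ II, |s - t| < δ → ∀ l ∈ Small S (δ / 2),
        l.map (H s) ++ l.map (H t) ∈ Small S' ε := by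
    intro S S' hS hm s hs t ht hst l hl
    have key2 : ∀ x ∈ l, ∃ a ∈ S, ∀ y ∈ l,
        dist (H s y) (H s a) < ε / 2 ∧ dist (H t y) (H s a) < ε / 2 := by
      intro x hx
      obtain ⟨a, ha, hxa⟩ := Metric.mem_thickening_iff.1 (hl.1 x hx)
      refine ⟨a, ha, fun y hy => ?_⟩
      have h3 : dist y a < δ := by
        have := dist_triangle y x a
        have := hl.2 y hy x hx
        linarith
      refine ⟨hδH s hs a (hS ha) s hs y (by simpa using hδ) h3, ?_⟩
      exact hδH s hs a (hS ha) t ht y (by rwa [abs_sub_comm]) h3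
    refine ⟨?_, ?_⟩
    · intro z hz
      simp only [List.mem_append, List.mem_map] at hz
      rcases hz with ⟨y, hy, rfl⟩ | ⟨y, hy, rfl⟩
      · obtain ⟨a, ha, h⟩ := key2 y hy
        exact Metric.mem_thickening_iff.2 ⟨H s a, hm s hs ha, lt_trans (h y hy).1 (by linarith)⟩
      · obtain ⟨a, ha, h⟩ := key2 y hy
        exact Metric.mem_thickening_iff.2 ⟨H s a, hm s hs ha, lt_trans (h y hy).2 (by linarith)⟩
    · intro z hz z' hz'
      have hz1 : ∃ y ∈ l, z = H s y ∨ z = H t y := by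
        simp only [List.mem_append, List.mem_map] at hz
        rcases hz with ⟨y, hy, rfl⟩ | ⟨y, hy, rfl⟩
        · exact ⟨y, hy, Or.inl rfl⟩
        · exact ⟨y, hy, Or.inr rfl⟩
      have hz1' : ∃ y ∈ l, z' = H s y ∨ z' = H t y := by
        simp only [List.mem_append, List.mem_map] at hz'
        rcases hz' with ⟨y, hy, rfl⟩ | ⟨y, hy, rfl⟩
        · exact ⟨y, hy, Or.inl rfl⟩
        · exact ⟨y, hy, Or.inr rfl⟩
      obtain ⟨y, hy, hzy⟩ := hz1
      obtain ⟨y', hy', hzy'⟩ := hz1'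
      obtain ⟨a, ha, h⟩ := key2 y hy
      have h4 : dist z (H s a) < ε / 2 := by
        rcases hzy with rfl | rfl
        · exact (h y hy).1
        · exact (h y hy).2
      have h5 : dist z' (H s a) < ε / 2 := by
        rcases hzy' with rfl | rfl
        · exact (h y' hy').1
        · exact (h y' hy').2
      have := dist_triangle_right z z' (H s a)
      linarith
  have hmem : ∀ k : ℕ, k ≤ N → ((k : ℝ) / N) ∈ II := by
    intro k hk
    refine ⟨by positivity, ?_⟩
    rw [div_le_one hN0]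
    exact_mod_cast hk
  have hind : ∀ k : ℕ, k ≤ N → Bd p A B (pull (H 0) c + pull (H ((k : ℝ) / N)) c) := by
    intro k
    induction k with
    | zero =>
      intro _
      rw [Nat.cast_zero, zero_div, add_self]
      exact Bd.zero
    | succ k ih =>
      intro hk
      have h3 := ih (by omega)
      have hs := hmem k (by omega)
      have ht := hmem (k + 1) hk
      have hst : |(k : ℝ) / N - ((k + 1 : ℕ) : ℝ) / N| < δ := by
        rw [← sub_div, Nat.cast_add, Nat.cast_one, sub_add_cancel_left, neg_div, abs_neg,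
          abs_of_pos (by positivity)]
        exact hstep
      have h4 : Bd p A B (pull (H ((k : ℝ) / N)) c + pull (H (((k + 1 : ℕ) : ℝ) / N)) c) :=
        contig (ε := ε) (δ := δ / 2) (by positivity) h.deg
          (fun l hl => h1 l (Small.mono Subset.rfl (min_le_left _ _) hl))
          (fun l hl => h2 l (Small.mono Subset.rfl (min_le_right _ _) hl))
          (key A A' subset_union_left hmA _ hs _ ht hst)
          (key B B' subset_union_right hmB _ hs _ ht hst)
      have h5 := h3.add h4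
      have h6 : pull (H 0) c + pull (H ((k : ℝ) / N)) c +
          (pull (H ((k : ℝ) / N)) c + pull (H (((k + 1 : ℕ) : ℝ) / N)) c) =
          pull (H 0) c + pull (H (((k + 1 : ℕ) : ℝ) / N)) c := by
        have := add_self (pull (H ((k : ℝ) / N)) c)
        calc _ = pull (H 0) c + (pull (H ((k : ℝ) / N)) c + pull (H ((k : ℝ) / N)) c) +
            pull (H (((k + 1 : ℕ) : ℝ) / N)) c := by abel
          _ = _ := by rw [this, add_zero]
      rwa [h6] at h5
  have h7 := hind N le_rfl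
  rwa [div_self hN0.ne'] at h7

end Pool.Agent.VC
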