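import Pool.Agent.VC.Core

/-!
Abstract theories on the compact subsets of a compact set `K`, and the vanishing theorem:
a theory that is acyclic at the points is acyclic.
-/

namespace Pool.Agent.VC

open Set Filter Topology

universe u v w

/-- A theory on the compact subsets of `K`: a graded group `W` of exponent two with a differential
and subgroups `Z A` of the elements that vanish near `A`. -/
structure Thy {Y : Type v} [MetricSpace Y] (K : Set Y) (W : Type w) [AddCommGroup W] where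
  gr : ℤ → AddSubgroup W
  d : W →+ W
  Z : Set Y → AddSubgroup W
  low : ℤ
  two : ∀ w : W, w + w = 0
  gr_low : ∀ p < low, ∀ w ∈ gr p, w = 0
  d_gr : ∀ p, ∀ w ∈ gr p, d w ∈ gr (p + 1)
  d_Z : ∀ p, ∀ w ∈ gr p, ∀ A ⊆ K, IsCompact A → w ∈ Z A → d w ∈ Z A
  dd_Z : ∀ p, ∀ w ∈ gr p, ∀ A ⊆ K, IsCompact A → d (d w) ∈ Z A
  anti : ∀ A B : Set Y, A ⊆ B → B ⊆ K → Z B ≤ Z A
  emp : ∀ p, ∀ w ∈ gr p, w ∈ Z ∅
  union : ∀ A ⊆ K, IsCompact A → ∀ B ⊆ K, IsCompact B → ∀ w, w ∈ Z A → w ∈ Z B → w ∈ Z (A ∪ B)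
  inter : ∀ A ⊆ K, IsCompact A → ∀ B ⊆ K, IsCompact B → ∀ p, ∀ w ∈ gr p, w ∈ Z (A ∩ B) →
    ∃ w₁ ∈ gr p, ∃ w₂ ∈ gr p, w₁ ∈ Z A ∧ w₂ ∈ Z B ∧ w = w₁ + w₂
  pt : ∀ y ∈ K, ∀ w, w ∈ Z {y} → ∃ r > 0, ∀ A ⊆ K, IsCompact A → A ⊆ Metric.closedBall y r →
    w ∈ Z A

namespace Thy

variable {Y : Type v} [MetricSpace Y] {K : Set Y} {W : Type w} [AddCommGroup W]
  (T : Thy K W)

/-- `w` is a coboundary on `A` (degree `p`). -/
def IsBd (p : ℤ) (A : Set Y) (w : W) : Prop := ∃ v ∈ T.gr (p - 1), w + T.d v ∈ T.Z A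

/-- Vanishing of the cohomology of degree `p` on `A`. -/
def Acyc (p : ℤ) (A : Set Y) : Prop := ∀ w ∈ T.gr p, T.d w ∈ T.Z A → T.IsBd p A w

variable {T}

theorem IsBd.glue {p : ℤ} {A B : Set Y} (hA : A ⊆ K) (hAc : IsCompact A) (hB : B ⊆ K)
    (hBc : IsCompact B) (hprev : T.Acyc (p - 1) (A ∩ B)) {w : W} (h1 : T.IsBd p A w)
    (h2 : T.IsBd p B w) : T.IsBd p (A ∪ B) w := by
  obtain ⟨v₁, hv₁, h1⟩ := h1
  obtain ⟨v₂, hv₂, h2⟩ := h2
  have hABK : A ∩ B ⊆ K := inter_subset_left.trans hA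
  have h3 : T.d (v₁ + v₂) ∈ T.Z (A ∩ B) := by
    have h4 := add_mem (T.anti _ _ inter_subset_left hA h1)
      (T.anti _ _ inter_subset_right hB h2)
    have h5 : w + T.d v₁ + (w + T.d v₂) = T.d (v₁ + v₂) := by
      rw [map_add]
      have := T.two w
      calc w + T.d v₁ + (w + T.d v₂) = (w + w) + (T.d v₁ + T.d v₂) := by abel
        _ = _ := by rw [this, zero_add]
    rwa [h5] at h4
  obtain ⟨e, he, h6⟩ := hprev _ (add_mem hv₁ hv₂) h3
  have hde : T.d e ∈ T.gr (p - 1) := by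
    have := T.d_gr _ e he
    rwa [show p - 1 - 1 + 1 = p - 1 by ring] at this
  obtain ⟨z₁, hz₁, z₂, hz₂, hz₁A, hz₂B, hz⟩ :=
    T.inter A hA hAc B hB hBc (p - 1) _ (add_mem (add_mem hv₁ hv₂) hde) h6
  refine ⟨v₁ + z₁, add_mem hv₁ hz₁, T.union A hA hAc B hB hBc _ ?_ ?_⟩
  · rw [map_add, ← add_assoc]
    exact add_mem h1 (T.d_Z _ _ hz₁ A hA hAc hz₁A)
  · have h7 : v₁ + z₁ = v₂ + T.d e + z₂ := by
      have h8 := T.two v₂
      have h9 := T.two (T.d e)
      have h10 := T.two z₁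
      calc v₁ + z₁ = (v₁ + v₂ + T.d e) + (v₂ + T.d e + z₁) + (-(v₂ + v₂) - (T.d e + T.d e)) := by
            abel
        _ = (z₁ + z₂) + (v₂ + T.d e + z₁) + (-(v₂ + v₂) - (T.d e + T.d e)) := by rw [hz]
        _ = (z₁ + z₁) + (v₂ + T.d e + z₂) + (-(v₂ + v₂) - (T.d e + T.d e)) := by abel
        _ = _ := by rw [h8, h9, h10]; abel
    rw [h7, map_add, map_add, show w + (T.d v₂ + T.d (T.d e) + T.d z₂) =
      (w + T.d v₂) + T.d (T.d e) + T.d z₂ by abel]
    exact add_mem (add_mem h2 (T.dd_Z _ e he B hB hBc)) (T.d_Z _ _ hz₂ B hB hBc hz₂B)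

theorem IsBd.local {p : ℤ} {y : Y} (hy : y ∈ K) {w : W} (h : T.IsBd p {y} w) :
    ∃ r > 0, ∀ A ⊆ K, IsCompact A → A ⊆ Metric.closedBall y r → T.IsBd p A w := by
  obtain ⟨v, hv, h⟩ := h
  obtain ⟨r, hr, h1⟩ := T.pt y hy _ h
  exact ⟨r, hr, fun A hA hAc hAb => ⟨v, hv, h1 A hA hAc hAb⟩⟩

/-- Element version: if the cohomology vanishes in degree `p - 1`, an element of degree `p` that is
a coboundary at every point is a coboundary. -/
theorem elt (T : Thy K W) {p : ℤ} (hprev : ∀ A ⊆ K, IsCompact A → T.Acyc (p - 1) A) {A : Set Y}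
    (hA : A ⊆ K) (hAc : IsCompact A) {w : W} (hw : w ∈ T.gr p)
    (hpt : ∀ y ∈ A, T.IsBd p {y} w) : T.IsBd p A w := by
  have h1 : ∀ y ∈ A, ∃ r > 0, ∀ B ⊆ K, IsCompact B → B ⊆ Metric.closedBall y r →
      T.IsBd p B w := fun y hy => (hpt y hy).local (hA hy)
  choose! r hr h2 using h1
  obtain ⟨t, htA, hcov⟩ := hAc.elim_nhds_subcover (fun y => Metric.closedBall y (r y))
    (fun y hy => Metric.closedBall_mem_nhds y (hr y hy))
  have h3 : ∀ s : Finset Y, (∀ y ∈ s, y ∈ A) →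
      T.IsBd p (A ∩ ⋃ y ∈ s, Metric.closedBall y (r y)) w := by
    classical
    intro s
    induction s using Finset.induction_on with
    | empty =>
      intro _
      refine ⟨0, zero_mem _, ?_⟩
      have : A ∩ ⋃ y ∈ (∅ : Finset Y), Metric.closedBall y (r y) = ∅ := by simp
      rw [this, map_zero, add_zero]
      exact T.emp _ _ hw
    | insert a s ha ih =>
      intro hs
      have h4 := ih (fun y hy => hs y (Finset.mem_insert_of_mem hy))
      have haA : a ∈ A := hs a (Finset.mem_insert_self a s)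
      have hcomp1 : IsCompact (A ∩ Metric.closedBall a (r a)) :=
        hAc.inter_right Metric.isClosed_closedBall
      have hcomp2 : IsCompact (A ∩ ⋃ y ∈ s, Metric.closedBall y (r y)) := by
        refine hAc.inter_right ?_
        exact s.finite_toSet.isClosed_biUnion (fun y _ => Metric.isClosed_closedBall)
      have hK1 : A ∩ Metric.closedBall a (r a) ⊆ K := inter_subset_left.trans hA
      have hK2 : (A ∩ ⋃ y ∈ s, Metric.closedBall y (r y)) ⊆ K := inter_subset_left.trans hA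
      have h5 : T.IsBd p (A ∩ Metric.closedBall a (r a)) w :=
        h2 a haA _ hK1 hcomp1 inter_subset_right
      have h6 := h5.glue hK1 hcomp1 hK2 hcomp2
        (hprev _ (inter_subset_left.trans hK1) (hcomp1.inter hcomp2)) h4
      rw [Finset.set_biUnion_insert, inter_union_distrib_left]
      exact h6
  have h7 := h3 t htA
  have h8 : (A ∩ ⋃ y ∈ t, Metric.closedBall y (r y)) = A := inter_eq_left.2 hcov
  rwa [h8] at h7

/-- The vanishing theorem. -/
theorem vanish (T : Thy K W) {P : ℤ} (hpt : ∀ y ∈ K, ∀ p ≤ P, T.Acyc p {y}) :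
    ∀ p ≤ P, ∀ A ⊆ K, IsCompact A → T.Acyc p A := by
  have key : ∀ n : ℕ, T.low - 1 + n ≤ P → ∀ A ⊆ K, IsCompact A →
      T.Acyc (T.low - 1 + n) A := by
    intro n
    induction n with
    | zero =>
      intro _ A hA hAc w hw _
      have : w = 0 := T.gr_low _ (by simp) w hw
      subst this
      exact ⟨0, zero_mem _, by rw [map_zero, add_zero]; exact zero_mem _⟩
    | succ n ih =>
      intro hP A hA hAc w hw hdw
      push_cast at hP hw ⊢
      refine T.elt (p := T.low - 1 + (n + 1)) ?_ hA hAc hw ?_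
      · intro B hB hBc
        have := ih (by linarith) B hB hBc
        rwa [show T.low - 1 + ((n : ℤ) + 1) - 1 = T.low - 1 + n by ring]
      · intro y hy
        refine hpt y (hA hy) _ hP w hw ?_
        exact T.anti _ _ (singleton_subset_iff.2 hy) hA hdw
  intro p hp A hA hAc
  by_cases h : p < T.low
  · intro w hw _
    have : w = 0 := T.gr_low _ h w hw
    subst this
    exact ⟨0, zero_mem _, by rw [map_zero, add_zero]; exact zero_mem _⟩
  · obtain ⟨n, hn⟩ : ∃ n : ℕ, p = T.low - 1 + n := ⟨(p - (T.low - 1)).toNat, by omega⟩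
    rw [hn] at hp ⊢
    exact key n hp A hA hAc

end Thy

end Pool.Agent.VC
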